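import Pool.Agent.H388SL.DobC

/-!
Distinctness of block sums of powers of an algebraic integer that is not a root of unity.
-/

set_option autoImplicit false

open Finset Polynomial Module

namespace Pool.Agent.Helper181_DPV

open Pool.Agent.H388SL

variable {K : Type} [Field K] [NumberField K]

lemma blocks {α : K} (hα : IsIntegral ℤ α) (hc : CInj α) (d Λ N : ℕ)
    (hd : d = finrank ℚ K) (hdeg : (minpoly ℚ α).natDegree = d) (hΛ : 1 ≤ Λ)
    (hbig : Real.log (N * d) < ((Λ : ℝ) - 1) * lam α)
    (e : ℕ → ℕ → ℤ) (he : ∀ i j, |e i j| ≤ 1)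
    (hsum : ∑ i ∈ range N, ∑ j ∈ range d, (e i j : K) * α ^ (i * (d * Λ) + j) = 0) :
    ∀ i < N, ∀ j < d, e i j = 0 := by
  classical
  have hd0 : 1 ≤ d := by rw [hd]; exact finrank_pos
  by_contra hcon
  push Not at hcon
  -- the top index
  set S : Finset ℕ := (range N).filter (fun i => ∃ j < d, e i j ≠ 0) with hS
  have hSne : S.Nonempty := by
    obtain ⟨i, hi, j, hj, hij⟩ := hcon
    exact ⟨i, by rw [hS, mem_filter, mem_range]; exact ⟨hi, j, hj, hij⟩⟩
  set k := S.max' hSne with hk
  have hkS : k ∈ S := S.max'_mem hSne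
  rw [hS, mem_filter, mem_range] at hkS
  obtain ⟨hkN, j0, hj0, hkj0⟩ := hkS
  have htop : ∀ i < N, k < i → ∀ j < d, e i j = 0 := by
    intro i hi hki j hj
    by_contra h
    have : i ∈ S := by rw [hS, mem_filter, mem_range]; exact ⟨hi, j, hj, h⟩
    have := S.le_max' i this
    omega
  set y : ℕ → K := fun i => ∑ j ∈ range d, (e i j : K) * α ^ j with hy
  have hyint : ∀ i, IsIntegral ℤ (y i) := by
    intro i
    rw [hy]
    refine IsIntegral.sum _ fun j _ => ?_
    exact (isIntegral_algebraMap (R := ℤ) (x := e i j)).mul (hα.pow j)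
  -- `y k ≠ 0`
  have hyk : y k ≠ 0 := by
    intro h0
    set P : ℚ[X] := ∑ j ∈ range d, C (e k j : ℚ) * X ^ j with hP
    have hPdeg : P.degree < d := by
      rw [degree_lt_iff_coeff_zero]
      intro m hm
      rw [hP, finsetSum_coeff]
      refine sum_eq_zero fun j hj => ?_
      rw [coeff_C_mul_X_pow, if_neg]
      have := mem_range.1 hj
      omega
    have hPz : aeval α P = 0 := by
      rw [hP, map_sum]
      rw [← h0, hy]
      refine sum_congr rfl fun j _ => ?_
      simp
    have hP0 : P = 0 := by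
      by_contra hne
      have h1 := minpoly.degree_le_of_ne_zero ℚ α hne hPz
      rw [degree_eq_natDegree (minpoly.ne_zero (Algebra.IsIntegral.isIntegral α)), hdeg] at h1
      exact absurd (h1.trans_lt hPdeg) (lt_irrefl _)
    have h2 : P.coeff j0 = (e k j0 : ℚ) := by
      rw [hP, finsetSum_coeff]
      rw [sum_eq_single j0]
      · simp
      · intro b _ hb
        rw [coeff_C_mul_X_pow, if_neg (Ne.symm hb)]
      · intro h
        exact absurd (mem_range.2 hj0) h
    rw [hP0, coeff_zero] at h2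
    exact hkj0 (by exact_mod_cast h2.symm)
  -- the relation
  have hrel : ∑ i ∈ range (k + 1), y i * α ^ (i * (d * Λ)) = 0 := by
    rw [← hsum]
    rw [← sum_subset (s₁ := range (k + 1)) (s₂ := range N)]
    · refine sum_congr rfl fun i _ => ?_
      rw [hy, sum_mul]
      refine sum_congr rfl fun j _ => ?_
      rw [pow_add]; ring
    · intro i hi
      rw [mem_range] at hi ⊢
      omega
    · intro i hi hi'
      rw [mem_range] at hi hi'
      refine sum_eq_zero fun j hj => ?_
      rw [htop i hi (by omega) j (mem_range.1 hj)]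
      simp
  have hyB : ∀ (σ : K →ₐ[ℚ] ℂ) i, ‖σ (y i)‖ ≤ d * (max 1 ‖σ α‖) ^ d := by
    intro σ i
    rw [hy, map_sum]
    refine (norm_sum_le _ _).trans ?_
    calc ∑ j ∈ range d, ‖σ ((e i j : K) * α ^ j)‖ ≤ ∑ _j ∈ range d, (max 1 ‖σ α‖) ^ d := by
          refine sum_le_sum fun j hj => ?_
          rw [map_mul, map_pow, norm_mul, norm_pow]
          have h1 : ‖σ (e i j : K)‖ ≤ 1 := by
            rw [map_intCast, Complex.norm_intCast]
            exact_mod_cast he i j
          have h2 : ‖σ α‖ ^ j ≤ (max 1 ‖σ α‖) ^ d := by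
            calc ‖σ α‖ ^ j ≤ (max 1 ‖σ α‖) ^ j :=
                  pow_le_pow_left₀ (norm_nonneg _) (le_max_right _ _) j
              _ ≤ (max 1 ‖σ α‖) ^ d :=
                  pow_le_pow_right₀ (le_max_left _ _) (mem_range.1 hj).le
          calc ‖σ (e i j : K)‖ * ‖σ α‖ ^ j ≤ 1 * (max 1 ‖σ α‖) ^ d :=
                mul_le_mul h1 h2 (by positivity) zero_le_one
            _ = _ := one_mul _
      _ = d * (max 1 ‖σ α‖) ^ d := by rw [sum_const, card_range, nsmul_eq_mul]
  set L := d * Λ with hL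
  have hdL : d ≤ L := by rw [hL]; exact Nat.le_mul_of_pos_right d hΛ
  -- the bound of the conjugates of `y k`
  have hkey : ∀ σ : K →ₐ[ℚ] ℂ, ‖σ (y k)‖ * (max 1 ‖σ α‖) ^ (L - d) ≤ (N : ℝ) * d := by
    intro σ
    have hNd : (d : ℝ) ≤ (N : ℝ) * d := by
      have : (1 : ℝ) ≤ N := by exact_mod_cast (by omega : 1 ≤ N)
      have hd' : (0 : ℝ) ≤ d := by positivity
      nlinarith
    rcases le_or_gt ‖σ α‖ 1 with ha | ha
    · have h1 := hyB σ k
      rw [max_eq_left ha, one_pow, mul_one] at h1
      rw [max_eq_left ha, one_pow, mul_one]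
      exact h1.trans hNd
    · rcases Nat.eq_zero_or_pos k with hk0 | hk0
      · exfalso
        rw [hk0] at hrel
        simp at hrel
        rw [hk0] at hyk
        exact hyk hrel
      · have hrel' : σ (y k) * σ α ^ (k * L) = - ∑ i ∈ range k, σ (y i) * σ α ^ (i * L) := by
          have := congrArg σ hrel
          rw [map_sum, sum_range_succ, map_zero] at this
          simp only [map_mul, map_pow] at this
          rw [eq_neg_iff_add_eq_zero, add_comm]
          exact this
        have hn := congrArg norm hrel'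
        rw [norm_mul, norm_pow, norm_neg] at hn
        set a := ‖σ α‖ with hadef
        rw [max_eq_right ha.le]
        have ha0 : 0 < a := by linarith
        have h2 : ‖σ (y k)‖ * a ^ (k * L) ≤ (k : ℝ) * (d * a ^ d * a ^ ((k - 1) * L)) := by
          rw [hn]
          refine (norm_sum_le _ _).trans ?_
          calc ∑ i ∈ range k, ‖σ (y i) * σ α ^ (i * L)‖
              ≤ ∑ _i ∈ range k, (d * a ^ d * a ^ ((k - 1) * L)) := by
                refine sum_le_sum fun i hi => ?_
                rw [norm_mul, norm_pow]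
                have h3 := hyB σ i
                rw [max_eq_right ha.le] at h3
                refine mul_le_mul h3 ?_ (by positivity) (by positivity)
                refine pow_le_pow_right₀ ha.le ?_
                have := mem_range.1 hi
                exact Nat.mul_le_mul_right _ (by omega)
            _ = (k : ℝ) * (d * a ^ d * a ^ ((k - 1) * L)) := by
                rw [sum_const, card_range, nsmul_eq_mul]
        have h4 : a ^ (k * L) = a ^ (L - d) * (a ^ d * a ^ ((k - 1) * L)) := by
          rw [← pow_add, ← pow_add]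
          congr 1
          have : k * L = L + (k - 1) * L := by
            obtain ⟨k', hk'⟩ := Nat.exists_eq_succ_of_ne_zero hk0.ne'
            rw [hk']
            simp only [Nat.succ_eq_add_one, Nat.add_sub_cancel]
            ring
          omega
        rw [h4] at h2
        have h5 : 0 < a ^ d * a ^ ((k - 1) * L) := by positivity
        have h6 : ‖σ (y k)‖ * a ^ (L - d) ≤ (k : ℝ) * d := by
          have : (‖σ (y k)‖ * a ^ (L - d)) * (a ^ d * a ^ ((k - 1) * L)) ≤
              ((k : ℝ) * d) * (a ^ d * a ^ ((k - 1) * L)) := by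
            calc _ = ‖σ (y k)‖ * (a ^ (L - d) * (a ^ d * a ^ ((k - 1) * L))) := by ring
              _ ≤ _ := h2
              _ = _ := by ring
          exact le_of_mul_le_mul_right this h5
        refine h6.trans ?_
        have : (k : ℝ) ≤ N := by exact_mod_cast hkN.le
        have hd' : (0 : ℝ) ≤ d := by positivity
        nlinarith
  -- take the product
  have hprod : ∏ σ : K →ₐ[ℚ] ℂ, (‖σ (y k)‖ * (max 1 ‖σ α‖) ^ (L - d)) ≤ ((N : ℝ) * d) ^ d := by
    calc _ ≤ ∏ _σ : K →ₐ[ℚ] ℂ, ((N : ℝ) * d) :=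
          prod_le_prod (fun σ _ => by positivity) (fun σ _ => hkey σ)
      _ = _ := by rw [prod_const, card_univ, AlgHom.card, hd]
  rw [prod_mul_distrib] at hprod
  have h1 := one_le_prod_norm (hyint k) hyk
  have hN0 : 0 < (N : ℝ) * d := by
    have h2 : (0 : ℝ) < N := by exact_mod_cast (by omega : 0 < N)
    have h3 : (0 : ℝ) < d := by exact_mod_cast (by omega : 0 < d)
    positivity
  have h2 : ∏ σ : K →ₐ[ℚ] ℂ, (max 1 ‖σ α‖) ^ (L - d) ≤ ((N : ℝ) * d) ^ d := by
    have h3 : 0 ≤ ∏ σ : K →ₐ[ℚ] ℂ, (max 1 ‖σ α‖) ^ (L - d) :=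
      prod_nonneg fun σ _ => by positivity
    calc _ = 1 * ∏ σ : K →ₐ[ℚ] ℂ, (max 1 ‖σ α‖) ^ (L - d) := (one_mul _).symm
      _ ≤ (∏ σ : K →ₐ[ℚ] ℂ, ‖σ (y k)‖) * ∏ σ : K →ₐ[ℚ] ℂ, (max 1 ‖σ α‖) ^ (L - d) :=
          mul_le_mul_of_nonneg_right h1 h3
      _ ≤ _ := hprod
  have h3 : ((L - d : ℕ) : ℝ) * lam α ≤ d * Real.log (N * d) := by
    have h4 : Real.log (∏ σ : K →ₐ[ℚ] ℂ, (max 1 ‖σ α‖) ^ (L - d)) = ((L - d : ℕ) : ℝ) * lam α := by
      rw [Real.log_prod (fun σ _ => by positivity)]
      unfold lam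
      rw [mul_sum]
      refine sum_congr rfl fun σ _ => ?_
      rw [Real.log_pow]
    rw [← h4, ← Real.log_pow]
    exact Real.log_le_log (prod_pos fun σ _ => by positivity) h2
  have h5 : ((L - d : ℕ) : ℝ) = d * ((Λ : ℝ) - 1) := by
    rw [Nat.cast_sub hdL, hL]; push_cast; ring
  rw [h5] at h3
  have h6 : (0 : ℝ) < d := by exact_mod_cast (by omega : 0 < d)
  have h7 : ((Λ : ℝ) - 1) * lam α ≤ Real.log (N * d) := by
    have : (d : ℝ) * (((Λ : ℝ) - 1) * lam α) ≤ d * Real.log (N * d) := by
      calc _ = d * ((Λ : ℝ) - 1) * lam α := by ring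
        _ ≤ _ := h3
    exact le_of_mul_le_mul_left this h6
  linarith

end Pool.Agent.Helper181_DPV
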