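import Pool.Agent.Helper181_DPV.Round

/-!
From a combination of two small polynomials to an integer polynomial with a value of prescribed size.
-/

set_option autoImplicit false

open Finset Polynomial

namespace Pool.Agent.Helper181_DPV

lemma sqsum (M : ℤ[X]) (g b : ℕ) (hd : M.natDegree < g) (hc : ∀ i, |M.coeff i| ≤ b) (j H : ℕ) :
    ∑ h ∈ range H, (((X ^ j * M : ℤ[X]).coeff h : ℝ)) ^ 2 ≤ (g : ℝ) * (b : ℝ) ^ 2 := by
  have h0 : ∀ h, h ∉ Finset.Ico j (j + g) → (X ^ j * M : ℤ[X]).coeff h = 0 := by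
    intro h hh
    rw [coeff_X_pow_mul']
    split_ifs with hj
    · apply coeff_eq_zero_of_natDegree_lt
      rw [Finset.mem_Ico] at hh
      omega
    · rfl
  have hb : ∀ h, (((X ^ j * M : ℤ[X]).coeff h : ℝ)) ^ 2 ≤ (b : ℝ) ^ 2 := by
    intro h
    rw [sq_le_sq, abs_of_nonneg (by positivity : (0 : ℝ) ≤ b)]
    rw [coeff_X_pow_mul']
    split_ifs
    · exact_mod_cast hc _
    · simp
  calc ∑ h ∈ range H, (((X ^ j * M : ℤ[X]).coeff h : ℝ)) ^ 2
      = ∑ h ∈ (range H).filter (fun h => h ∈ Finset.Ico j (j + g)),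
          (((X ^ j * M : ℤ[X]).coeff h : ℝ)) ^ 2 := by
        rw [sum_filter_of_ne]
        intro h _ hne
        by_contra hcon
        apply hne
        rw [h0 h hcon]
        simp
    _ ≤ ∑ _h ∈ (range H).filter (fun h => h ∈ Finset.Ico j (j + g)), (b : ℝ) ^ 2 :=
        sum_le_sum fun h _ => hb h
    _ = (((range H).filter (fun h => h ∈ Finset.Ico j (j + g))).card : ℝ) * (b : ℝ) ^ 2 := by
        rw [sum_const, nsmul_eq_mul]
    _ ≤ (g : ℝ) * (b : ℝ) ^ 2 := by
        apply mul_le_mul_of_nonneg_right _ (by positivity)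
        have h1 : ((range H).filter (fun h => h ∈ Finset.Ico j (j + g))).card ≤
            (Finset.Ico j (j + g)).card := by
          apply card_le_card
          intro h hh
          exact (mem_filter.1 hh).2
        rw [Nat.card_Ico] at h1
        exact_mod_cast (by omega : _ ≤ g)

/-- general rounding statement for integer combinations -/
lemma exL0 {ι : Type*} [Fintype ι] (z : ℂ) (N : ι → ℤ[X]) (y : ι → ℝ) (δ r Q : ℝ) (H : ℕ)
    (hδ : ∀ i, ‖aeval z (N i)‖ ≤ δ) (hr : 0 < r) (hc : 3 * (Fintype.card ι : ℝ) * δ ≤ r / 2)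
    (hQ : ∑ i, ∑ h ∈ range H, ((N i).coeff h : ℝ) ^ 2 ≤ Q)
    (hN : ∀ i, (N i).natDegree < H)
    (hw : 2 * r ≤ ‖∑ i, (y i : ℂ) * aeval z (N i)‖) :
    ∃ L : ℤ[X], r / 2 ≤ ‖aeval z L‖ ∧ ‖aeval z L‖ < r ∧ L.natDegree < H ∧
      ∑ h ∈ range H, |(L.coeff h : ℝ)| ≤
        ∑ h ∈ range H, |∑ i, y i * ((N i).coeff h : ℝ)| + Real.sqrt (H * Q) := by
  classical
  set u : ι → EuclideanSpace ℝ (Fin H) := fun i => WithLp.toLp 2 (fun h : Fin H => ((N i).coeff h : ℝ)) with hu
  have hround : ∀ t : ℝ, ∃ k : ι → ℤ, (∀ i, |(k i : ℝ) - t * y i| ≤ 1) ∧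
      ‖∑ i, ((k i : ℝ) - t * y i) • u i‖ ^ 2 ≤ ∑ i, ‖u i‖ ^ 2 := fun t => round u (fun i => t * y i)
  choose ρ hρ1 hρ2 using hround
  obtain ⟨t, ht, h1, h2⟩ := gap (fun i => aeval z (N i)) y δ r hδ hr hc ρ hρ1 hw
  have hunorm : ∑ i, ‖u i‖ ^ 2 ≤ Q := by
    refine le_trans (le_of_eq ?_) hQ
    refine sum_congr rfl fun i _ => ?_
    rw [EuclideanSpace.norm_sq_eq, hu]
    simp only [Real.norm_eq_abs, sq_abs]
    rw [← Fin.sum_univ_eq_sum_range (fun h => ((N i).coeff h : ℝ) ^ 2) H]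
  have hH0 : 0 < H := by
    by_contra hcon
    have hι : IsEmpty ι := by
      constructor
      intro i
      have := hN i
      omega
    simp at hw
    linarith
  refine ⟨∑ i, C (ρ t i) * N i, ?_, ?_, ?_, ?_⟩
  · have : aeval z (∑ i, C (ρ t i) * N i) = ∑ i, (ρ t i : ℂ) * aeval z (N i) := by
      rw [map_sum]
      refine sum_congr rfl fun i _ => ?_
      rw [map_mul, aeval_C]
      simp
    rw [this]; exact h1
  · have : aeval z (∑ i, C (ρ t i) * N i) = ∑ i, (ρ t i : ℂ) * aeval z (N i) := by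
      rw [map_sum]
      refine sum_congr rfl fun i _ => ?_
      rw [map_mul, aeval_C]
      simp
    rw [this]; exact h2
  · rw [Nat.lt_iff_le_pred hH0]
    apply natDegree_sum_le_of_forall_le
    intro i _
    refine natDegree_mul_le.trans ?_
    rw [natDegree_C, zero_add]
    have := hN i
    exact Nat.le_pred_of_lt this
  · have hco : ∀ h, ((∑ i, C (ρ t i) * N i : ℤ[X]).coeff h : ℝ) =
        t * (∑ i, y i * ((N i).coeff h : ℝ)) + ∑ i, ((ρ t i : ℝ) - t * y i) * ((N i).coeff h : ℝ) := by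
      intro h
      rw [finsetSum_coeff]
      push_cast
      rw [mul_sum, ← sum_add_distrib]
      refine sum_congr rfl fun i _ => ?_
      rw [coeff_C_mul]
      push_cast
      ring
    set w : EuclideanSpace ℝ (Fin H) := ∑ i, ((ρ t i : ℝ) - t * y i) • u i with hw'
    have hwc : ∀ h : Fin H, w h = ∑ i, ((ρ t i : ℝ) - t * y i) * ((N i).coeff h : ℝ) := by
      intro h
      rw [hw', hu]
      simp
    have hwn : (∑ h : Fin H, |w h|) ≤ Real.sqrt (H * Q) := by
      apply Real.le_sqrt_of_sq_le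
      calc (∑ h : Fin H, |w h|) ^ 2 ≤ (univ : Finset (Fin H)).card * ∑ h : Fin H, |w h| ^ 2 :=
            sq_sum_le_card_mul_sum_sq
        _ = H * ‖w‖ ^ 2 := by
            rw [card_univ, Fintype.card_fin, EuclideanSpace.norm_sq_eq]
            simp only [Real.norm_eq_abs]
        _ ≤ H * Q := mul_le_mul_of_nonneg_left ((hρ2 t).trans hunorm) (by positivity)
    calc ∑ h ∈ range H, |((∑ i, C (ρ t i) * N i : ℤ[X]).coeff h : ℝ)|
        ≤ ∑ h ∈ range H, (|∑ i, y i * ((N i).coeff h : ℝ)| +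
            |∑ i, ((ρ t i : ℝ) - t * y i) * ((N i).coeff h : ℝ)|) := by
          refine sum_le_sum fun h _ => ?_
          rw [hco]
          refine (abs_add_le _ _).trans ?_
          apply add_le_add _ le_rfl
          rw [abs_mul, abs_of_nonneg ht.1]
          calc t * |∑ i, y i * ((N i).coeff h : ℝ)| ≤ 1 * |∑ i, y i * ((N i).coeff h : ℝ)| :=
                mul_le_mul_of_nonneg_right ht.2 (abs_nonneg _)
            _ = _ := one_mul _
      _ = ∑ h ∈ range H, |∑ i, y i * ((N i).coeff h : ℝ)| +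
            ∑ h ∈ range H, |∑ i, ((ρ t i : ℝ) - t * y i) * ((N i).coeff h : ℝ)| := sum_add_distrib
      _ ≤ _ := by
          apply add_le_add le_rfl
          rw [← Fin.sum_univ_eq_sum_range
            (fun h => |∑ i, ((ρ t i : ℝ) - t * y i) * ((N i).coeff h : ℝ)|) H]
          refine le_trans (le_of_eq ?_) hwn
          refine sum_congr rfl fun h _ => ?_
          rw [hwc]

end Pool.Agent.Helper181_DPV
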