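import Mathlib

/-!
The points of the rectangle are approximated by logarithms of values of integer polynomials.
-/

set_option autoImplicit false

open Finset Polynomial

namespace Pool.Agent.Helper181_DPV

/-- The set `S_n(θ)` as a subset of `ℂ`: the logarithms, with imaginary part in `[0, 2π)`, of the
non-zero values at `e^{iθ}` of the integer polynomials of weight at most `n`. -/
def S (n : ℕ) (θ : ℝ) : Set ℂ :=
  {ζ | 0 ≤ ζ.im ∧ ζ.im < 2 * Real.pi ∧ ∃ (D : ℕ) (c : ℕ → ℤ),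
    ∑ j ∈ range (D + 1), (1 + |c j|) ≤ n ∧
    Complex.exp ζ = ∑ j ∈ range (D + 1), (c j : ℂ) * Complex.exp (Complex.I * θ) ^ j}

/-- `θ` has property `DPV(n, R)`. -/
def DPV (n : ℕ) (R θ : ℝ) : Prop :=
  ∀ p : ℂ, -Real.log R ≤ p.re → p.re ≤ 0 → 0 ≤ p.im → p.im ≤ 2 * Real.pi →
    ∃ ζ ∈ S n θ, dist p ζ ≤ 0.1

/-- `R_DPV(n, θ)`. -/
noncomputable def RDPV (n : ℕ) (θ : ℝ) : EReal :=
  ⨆ (R : ℝ) (_ : 0 < R ∧ DPV n R θ), (R : EReal)

lemma sum_coeff_le (L : ℤ[X]) (H : ℕ) (hL : L.natDegree < H) (a b : ℤ) :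
    ∑ j ∈ range (H + 1), |((((C a + C b * X) * L).coeff j : ℤ) : ℝ)| ≤
      (|(a : ℝ)| + |(b : ℝ)|) * ∑ h ∈ range H, |(L.coeff h : ℝ)| := by
  have h1 : (C a + C b * X) * L = C a * L + C b * (X * L) := by ring
  rw [h1, add_mul, mul_sum, mul_sum]
  have h2 : ∑ j ∈ range (H + 1), |(a : ℝ)| * |(L.coeff j : ℝ)| =
      ∑ h ∈ range H, |(a : ℝ)| * |(L.coeff h : ℝ)| := by
    rw [sum_range_succ, coeff_eq_zero_of_natDegree_lt hL]; simp
  have h3 : ∑ j ∈ range (H + 1), |(b : ℝ)| * |(((X * L).coeff j : ℤ) : ℝ)| =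
      ∑ h ∈ range H, |(b : ℝ)| * |(L.coeff h : ℝ)| := by
    rw [sum_range_succ']
    simp [coeff_X_mul]
  rw [← h2, ← h3, ← sum_add_distrib]
  refine sum_le_sum fun j _ => ?_
  rw [coeff_add, coeff_C_mul, coeff_C_mul]
  push_cast
  refine (abs_add_le _ _).trans (le_of_eq ?_)
  rw [abs_mul, abs_mul]

lemma cover (θ : ℝ) (hsin : Real.sin θ ≠ 0) (n s₁ Smax : ℕ) (hs₁ : 7 ≤ s₁) (A₁ : ℝ)
    (hA₁ : 2 + 2 ^ (s₁ + 2) * (1 + 2 / |Real.sin θ|) ≤ A₁)
    (hL : ∀ s : ℕ, s₁ ≤ s → s ≤ Smax → ∃ (L : ℤ[X]) (H : ℕ),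
      (1 / 2 : ℝ) ^ s / 2 ≤ ‖aeval (Complex.exp (Complex.I * θ)) L‖ ∧
      ‖aeval (Complex.exp (Complex.I * θ)) L‖ < (1 / 2 : ℝ) ^ s ∧
      L.natDegree < H ∧ (H : ℝ) + 1 + A₁ * ∑ h ∈ range H, |(L.coeff h : ℝ)| ≤ n)
    (p : ℂ) (hu : p.re ≤ 0) (hu2 : -p.re / Real.log 2 + s₁ + 1 ≤ Smax)
    (hφ : 0 ≤ p.im) (hφ2 : p.im ≤ 2 * Real.pi) :
    ∃ ζ ∈ S n θ, dist p ζ ≤ 0.1 := by
  set z := Complex.exp (Complex.I * θ) with hz
  have hpi := Real.pi_gt_three
  have hl2 : 0 < Real.log 2 := Real.log_pos (by norm_num)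
  set u := p.re with hudef
  set φ := p.im with hφdef
  set k : ℕ := ⌈-u / Real.log 2⌉₊ with hk
  have hk0 : 0 ≤ -u / Real.log 2 := div_nonneg (by linarith) hl2.le
  have hk1 : -u / Real.log 2 ≤ k := Nat.le_ceil _
  have hk2 : (k : ℝ) < -u / Real.log 2 + 1 := Nat.ceil_lt_add_one hk0
  have hsm : k + s₁ ≤ Smax := by
    have : ((k + s₁ : ℕ) : ℝ) ≤ Smax := by push_cast; linarith
    exact_mod_cast this
  obtain ⟨L, H, hL1, hL2, hL3, hL4⟩ := hL (k + s₁) (by omega) hsm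
  set w := aeval z L with hw
  have hpow : (0 : ℝ) < (1 / 2 : ℝ) ^ (k + s₁) := by positivity
  have hw0 : 0 < ‖w‖ := lt_of_lt_of_le (by positivity) hL1
  have hwne : w ≠ 0 := norm_pos_iff.1 hw0
  -- the clamped angle
  set φ' : ℝ := max 0.05 (min φ (2 * Real.pi - 0.05)) with hφ'
  have hφ1 : 0.05 ≤ φ' := le_max_left _ _
  have hφ2' : φ' ≤ 2 * Real.pi - 0.05 := max_le (by linarith) (min_le_right _ _)
  have hφφ : |φ - φ'| ≤ 0.05 := by
    rw [hφ', abs_le]
    rcases le_total φ (2 * Real.pi - 0.05) with h1 | h1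
    · rw [min_eq_left h1]
      rcases le_total 0.05 φ with h2 | h2
      · rw [max_eq_right h2]; constructor <;> linarith
      · rw [max_eq_left h2]; constructor <;> linarith
    · rw [min_eq_right h1]
      rw [max_eq_right (by linarith)]
      constructor <;> linarith
  set lam : ℂ := (u : ℂ) + φ' * Complex.I with hlam
  have hlre : lam.re = u := by simp [hlam]
  have hlim : lam.im = φ' := by simp [hlam]
  set τ : ℂ := Complex.exp lam / w with hτ
  have hexpn : ‖Complex.exp lam‖ = Real.exp u := by rw [Complex.norm_exp, hlre]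
  have hτn : ‖τ‖ = Real.exp u / ‖w‖ := by rw [hτ, norm_div, hexpn]
  -- 2^k bounds
  have h2k : (2 : ℝ) ^ k = Real.exp (k * Real.log 2) := by
    rw [mul_comm, ← Real.rpow_def_of_pos (by norm_num), Real.rpow_natCast]
  have hA : 1 ≤ Real.exp u * 2 ^ k := by
    rw [h2k, ← Real.exp_add]
    apply Real.one_le_exp
    have : -u ≤ k * Real.log 2 := by rwa [div_le_iff₀ hl2] at hk1
    linarith
  have hB : Real.exp u * 2 ^ k ≤ 2 := by
    rw [h2k, ← Real.exp_add]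
    have h3 : (k : ℝ) * Real.log 2 ≤ -u + Real.log 2 := by
      have := mul_le_mul_of_nonneg_right hk2.le hl2.le
      calc (k : ℝ) * Real.log 2 ≤ (-u / Real.log 2 + 1) * Real.log 2 := this
        _ = -u + Real.log 2 := by field_simp
    calc Real.exp (u + k * Real.log 2) ≤ Real.exp (Real.log 2) :=
          Real.exp_le_exp.2 (by linarith)
      _ = 2 := Real.exp_log (by norm_num)
  have hinv : (1 / 2 : ℝ) ^ (k + s₁) * 2 ^ (k + s₁) = 1 := by
    rw [← mul_pow]; norm_num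
  have h2s : (0 : ℝ) < 2 ^ (k + s₁) := by positivity
  have hτ1 : (2 : ℝ) ^ s₁ ≤ ‖τ‖ := by
    rw [hτn, le_div_iff₀ hw0]
    have h4 : ‖w‖ * 2 ^ (k + s₁) ≤ 1 := by
      rw [← hinv]; exact mul_le_mul_of_nonneg_right hL2.le h2s.le
    have h5 : (2 : ℝ) ^ (k + s₁) = 2 ^ k * 2 ^ s₁ := pow_add _ _ _
    rw [h5] at h4
    have h6 : (0 : ℝ) < 2 ^ k := by positivity
    have h7 : (0 : ℝ) ≤ 2 ^ s₁ * ‖w‖ := by positivity
    have h8 : 2 ^ s₁ * ‖w‖ ≤ (Real.exp u * 2 ^ k) * (2 ^ s₁ * ‖w‖) := le_mul_of_one_le_left h7 hA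
    have h9 : (Real.exp u * 2 ^ k) * (2 ^ s₁ * ‖w‖) = Real.exp u * (‖w‖ * (2 ^ k * 2 ^ s₁)) := by ring
    rw [h9] at h8
    exact h8.trans (mul_le_of_le_one_right (Real.exp_pos u).le h4)
  have hτ2 : ‖τ‖ ≤ 2 ^ (s₁ + 2) := by
    rw [hτn, div_le_iff₀ hw0]
    have h4 : 1 ≤ 2 * (‖w‖ * 2 ^ (k + s₁)) := by
      calc (1 : ℝ) = 2 * (((1 / 2 : ℝ) ^ (k + s₁) / 2) * 2 ^ (k + s₁)) := by
            rw [div_mul_eq_mul_div, hinv]; norm_num
        _ ≤ _ := by
            apply mul_le_mul_of_nonneg_left _ (by norm_num)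
            exact mul_le_mul_of_nonneg_right hL1 h2s.le
    calc Real.exp u ≤ Real.exp u * (2 * (‖w‖ * 2 ^ (k + s₁))) :=
          le_mul_of_one_le_right (Real.exp_pos u).le h4
      _ = (Real.exp u * 2 ^ k) * (2 * ‖w‖ * 2 ^ s₁) := by rw [pow_add]; ring
      _ ≤ 2 * (2 * ‖w‖ * 2 ^ s₁) := mul_le_mul_of_nonneg_right hB (by positivity)
      _ = 2 ^ (s₁ + 2) * ‖w‖ := by rw [pow_add]; ring
  have hs128 : (128 : ℝ) ≤ 2 ^ s₁ := by
    calc (128 : ℝ) = 2 ^ 7 := by norm_num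
      _ ≤ 2 ^ s₁ := pow_le_pow_right₀ (by norm_num) hs₁
  have hτ0 : 0 < ‖τ‖ := by linarith
  have hτne : τ ≠ 0 := norm_pos_iff.1 hτ0
  -- real coordinates
  set y : ℝ := τ.im / Real.sin θ with hy
  set x : ℝ := τ.re - y * Real.cos θ with hx
  have hzre : z.re = Real.cos θ := by
    rw [hz, mul_comm, Complex.exp_ofReal_mul_I_re]
  have hzim : z.im = Real.sin θ := by
    rw [hz, mul_comm, Complex.exp_ofReal_mul_I_im]
  have hzn : ‖z‖ = 1 := by
    rw [hz, mul_comm, Complex.norm_exp_ofReal_mul_I]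
  have hxy : τ = x + y * z := by
    apply Complex.ext
    · rw [Complex.add_re, Complex.mul_re, Complex.ofReal_re, Complex.ofReal_re, Complex.ofReal_im,
        hzre, hx]
      ring
    · rw [Complex.add_im, Complex.mul_im, Complex.ofReal_im, Complex.ofReal_re, Complex.ofReal_im,
        hzim, zero_mul, add_zero, zero_add, hy]
      exact (div_mul_cancel₀ _ hsin).symm
  set a : ℤ := round x with ha
  set b : ℤ := round y with hb
  have hax : |(a : ℝ) - x| ≤ 1 / 2 := by rw [abs_sub_comm]; exact abs_sub_round x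
  have hby : |(b : ℝ) - y| ≤ 1 / 2 := by rw [abs_sub_comm]; exact abs_sub_round y
  set ε : ℂ := ((a : ℂ) + b * z - τ) / τ with hε
  have hnum : ‖(a : ℂ) + b * z - τ‖ ≤ 1 := by
    have h4 : (a : ℂ) + b * z - τ = (((a : ℝ) - x : ℝ) : ℂ) + (((b : ℝ) - y : ℝ) : ℂ) * z := by
      rw [hxy]; push_cast; ring
    rw [h4]
    refine (norm_add_le _ _).trans ?_
    rw [norm_mul, hzn, mul_one, Complex.norm_real, Complex.norm_real, Real.norm_eq_abs,
      Real.norm_eq_abs]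
    linarith
  have hεn : ‖ε‖ ≤ 1 / 128 := by
    rw [hε, norm_div, div_le_iff₀ hτ0]
    linarith
  set P : ℤ[X] := (C a + C b * X) * L with hP
  have hPz : aeval z P = ((a : ℂ) + b * z) * w := by
    rw [hP, map_mul, map_add, map_mul, aeval_C, aeval_C, aeval_X, eq_intCast, eq_intCast]
  have h1ε : (1 : ℂ) + ε ≠ 0 := by
    intro h
    have h4 : ε = -1 := by linear_combination h
    rw [h4, norm_neg, norm_one] at hεn
    norm_num at hεn
  have hPw : Complex.exp (lam + Complex.log (1 + ε)) = aeval z P := by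
    rw [Complex.exp_add, Complex.exp_log h1ε, hPz]
    have h4 : Complex.exp lam = τ * w := by rw [hτ]; field_simp
    have h5 : τ * (1 + ε) = (a : ℂ) + b * z := by rw [hε]; field_simp; ring
    rw [h4, ← h5]; ring
  have hlog : ‖Complex.log (1 + ε)‖ ≤ 3 / 2 * ‖ε‖ :=
    Complex.norm_log_one_add_half_le_self (by linarith)
  have hlog' : ‖Complex.log (1 + ε)‖ ≤ 0.012 := by
    refine hlog.trans ?_
    have : 3 / 2 * ‖ε‖ ≤ 3 / 2 * (1 / 128) := by linarith
    refine this.trans ?_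
    norm_num
  have him := Complex.abs_im_le_norm (Complex.log (1 + ε))
  have him' := abs_le.1 (him.trans hlog')
  refine ⟨lam + Complex.log (1 + ε), ⟨?_, ?_, H, fun j => P.coeff j, ?_, ?_⟩, ?_⟩
  · rw [Complex.add_im, hlim]
    norm_num at him' hφ1 ⊢
    linarith [him'.1]
  · rw [Complex.add_im, hlim]
    norm_num at him' hφ2' ⊢
    linarith [him'.2]
  · have h4 := sum_coeff_le L H hL3 a b
    rw [← hP] at h4
    have hyb : |y| ≤ ‖τ‖ / |Real.sin θ| := by
      rw [hy, abs_div]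
      exact div_le_div_of_nonneg_right (Complex.abs_im_le_norm τ) (abs_nonneg _)
    have hxb : |x| ≤ ‖τ‖ + |y| := by
      rw [hx]
      refine (abs_sub _ _).trans ?_
      rw [abs_mul]
      have h5 := Complex.abs_re_le_norm τ
      have h6 : |y| * |Real.cos θ| ≤ |y| := mul_le_of_le_one_right (abs_nonneg _) (Real.abs_cos_le_one θ)
      linarith
    have hab : |(a : ℝ)| + |(b : ℝ)| ≤ A₁ := by
      have h5 : |(a : ℝ)| ≤ |x| + 1 / 2 := by
        have := abs_sub_abs_le_abs_sub (a : ℝ) x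
        linarith
      have h6 : |(b : ℝ)| ≤ |y| + 1 / 2 := by
        have := abs_sub_abs_le_abs_sub (b : ℝ) y
        linarith
      have h7 : ‖τ‖ + 2 * (‖τ‖ / |Real.sin θ|) ≤ 2 ^ (s₁ + 2) * (1 + 2 / |Real.sin θ|) := by
        calc ‖τ‖ + 2 * (‖τ‖ / |Real.sin θ|) = ‖τ‖ * (1 + 2 / |Real.sin θ|) := by ring
          _ ≤ _ := mul_le_mul_of_nonneg_right hτ2 (by positivity)
      linarith
    have h8 : ∑ j ∈ range (H + 1), |((P.coeff j : ℤ) : ℝ)| ≤
        A₁ * ∑ h ∈ range H, |(L.coeff h : ℝ)| :=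
      h4.trans (mul_le_mul_of_nonneg_right hab (sum_nonneg fun _ _ => abs_nonneg _))
    have h9 : ((∑ j ∈ range (H + 1), (1 + |P.coeff j|) : ℤ) : ℝ) ≤ n := by
      push_cast
      rw [sum_add_distrib, sum_const, card_range, nsmul_eq_mul, mul_one]
      push_cast
      linarith
    exact_mod_cast h9
  · rw [hPw]
    have hPd : P.natDegree < H + 1 := by
      have h5 : P.natDegree ≤ (C a + C b * X).natDegree + L.natDegree := natDegree_mul_le
      have h6 : (C a + C b * X : ℤ[X]).natDegree ≤ 1 := by compute_degree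
      omega
    rw [aeval_eq_sum_range' hPd]
    refine sum_congr rfl fun j _ => ?_
    rw [zsmul_eq_mul]
  · rw [dist_eq_norm]
    have h4 : p - (lam + Complex.log (1 + ε)) = ((φ - φ' : ℝ) : ℂ) * Complex.I - Complex.log (1 + ε) := by
      have h5 : p = (u : ℂ) + φ * Complex.I := by rw [hudef, hφdef, Complex.re_add_im]
      rw [h5, hlam]; push_cast; ring
    rw [h4]
    refine (norm_sub_le _ _).trans ?_
    rw [norm_mul, Complex.norm_I, mul_one, Complex.norm_real, Real.norm_eq_abs]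
    norm_num at hφφ hlog' ⊢
    linarith

end Pool.Agent.Helper181_DPV
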