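import Mathlib

/-!
Multiples of products of cyclotomic polynomials with few and small coefficients.
-/

set_option autoImplicit false

open Finset Polynomial

namespace Pool.Agent.Helper181_DPV

lemma prod_one_sub (S : Finset ℕ) (hS : ∀ p ∈ S, 2 ≤ p) :
    1 / ((S.card : ℚ) + 1) ≤ ∏ p ∈ S, (1 - (p : ℚ)⁻¹) := by
  induction S using Finset.induction_on_max with
  | empty => simp
  | insert a s hmax ih =>
    have ha : a ∉ s := fun h => lt_irrefl _ (hmax a h)
    have h2 : ∀ p ∈ s, 2 ≤ p := fun p hp => hS p (mem_insert_of_mem hp)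
    have h1 := ih h2
    have hcard : s.card + 2 ≤ a := by
      have hsub : s ⊆ Finset.Ico 2 a := by
        intro p hp
        rw [Finset.mem_Ico]
        exact ⟨h2 p hp, hmax p hp⟩
      have := card_le_card hsub
      rw [Nat.card_Ico] at this
      have := hS a (mem_insert_self _ _)
      omega
    rw [prod_insert ha, card_insert_of_notMem ha]
    have hc : (0 : ℚ) < (s.card : ℚ) + 1 := by positivity
    have ha' : ((s.card : ℚ) + 2) ≤ a := by exact_mod_cast hcard
    have h3 : (a : ℚ)⁻¹ ≤ ((s.card : ℚ) + 2)⁻¹ := inv_anti₀ (by positivity) ha'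
    have h4 : 1 - ((s.card : ℚ) + 2)⁻¹ = ((s.card : ℚ) + 1) / ((s.card : ℚ) + 2) := by
      field_simp; ring
    have h5 : 0 ≤ 1 - (a : ℚ)⁻¹ := by
      have : (0 : ℚ) ≤ 1 - ((s.card : ℚ) + 2)⁻¹ := by rw [h4]; positivity
      linarith
    calc 1 / (((s.card + 1 : ℕ) : ℚ) + 1) = (1 - ((s.card : ℚ) + 2)⁻¹) * (1 / ((s.card : ℚ) + 1)) := by
          rw [h4]; push_cast; field_simp; ring
      _ ≤ (1 - (a : ℚ)⁻¹) * (1 / ((s.card : ℚ) + 1)) := by
          apply mul_le_mul_of_nonneg_right _ (by positivity)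
          linarith
      _ ≤ _ := mul_le_mul_of_nonneg_left h1 h5

lemma le_totient_mul_log (q : ℕ) (hq : 0 < q) : q ≤ q.totient * (Nat.log 2 q + 1) := by
  have h1 := Nat.totient_eq_mul_prod_factors q
  have h2 := prod_one_sub q.primeFactors (fun p hp => (Nat.prime_of_mem_primeFactors hp).two_le)
  have h3 : 2 ^ q.primeFactors.card ≤ q := by
    calc 2 ^ q.primeFactors.card = ∏ _p ∈ q.primeFactors, 2 := by rw [prod_const]
      _ ≤ ∏ p ∈ q.primeFactors, p :=
          prod_le_prod' fun p hp => (Nat.prime_of_mem_primeFactors hp).two_le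
      _ ≤ q := Nat.le_of_dvd hq (Nat.prod_primeFactors_dvd q)
  have h4 : q.primeFactors.card ≤ Nat.log 2 q := Nat.le_log_of_pow_le (by norm_num) h3
  have h5 : (q : ℚ) * (1 / ((q.primeFactors.card : ℚ) + 1)) ≤ q.totient := by
    rw [h1]
    exact mul_le_mul_of_nonneg_left h2 (by positivity)
  have h6 : (q : ℚ) ≤ q.totient * ((q.primeFactors.card : ℚ) + 1) := by
    rw [mul_one_div, div_le_iff₀ (by positivity)] at h5
    exact h5
  have h7 : q ≤ q.totient * (q.primeFactors.card + 1) := by exact_mod_cast h6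
  exact h7.trans (Nat.mul_le_mul_left _ (by omega))

lemma sq_le_four (k : ℕ) : (k + 1) ^ 2 ≤ 4 * 2 ^ k := by
  induction k with
  | zero => norm_num
  | succ n ih =>
    rcases Nat.lt_or_ge n 3 with h | h
    · interval_cases n <;> norm_num
    · have h1 : (n + 1 + 1) ^ 2 ≤ 2 * (n + 1) ^ 2 := by nlinarith
      rw [pow_succ 2 n]
      omega

lemma le_totient_sq (q : ℕ) (hq : 0 < q) : q ≤ 4 * q.totient ^ 2 := by
  have h1 := le_totient_mul_log q hq
  have h2 := sq_le_four (Nat.log 2 q)
  have h3 := Nat.pow_log_le_self 2 hq.ne'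
  have h4 : q * q ≤ (4 * q.totient ^ 2) * q := by
    calc q * q ≤ (q.totient * (Nat.log 2 q + 1)) * (q.totient * (Nat.log 2 q + 1)) :=
          Nat.mul_le_mul h1 h1
      _ = q.totient ^ 2 * (Nat.log 2 q + 1) ^ 2 := by ring
      _ ≤ q.totient ^ 2 * (4 * q) := Nat.mul_le_mul_left _ (h2.trans (Nat.mul_le_mul_left _ h3))
      _ = (4 * q.totient ^ 2) * q := by ring
  exact Nat.le_of_mul_le_mul_right h4 hq

/-- multiples of products of cyclotomic polynomials -/
lemma exv (z : ℂ) (hz : ‖z‖ = 1) (C' : ℝ)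
    (hC' : ∀ q : ℕ, 0 < q → Real.exp (-(C' * q.totient)) ≤ ‖z ^ q - 1‖) (hC0 : 0 ≤ C')
    (g W : ℕ) (hW1 : 1 ≤ W) (hW : ∀ q : ℕ, 0 < q → q.totient ≤ g → q ≤ q.totient * W) :
    ∀ n : ℕ, n ≤ g → ∀ G : ℤ[X], G.Monic → G.natDegree = n →
      (∀ α : ℂ, aeval α G = 0 → α = 0 ∨ ∃ k : ℕ, 0 < k ∧ α ^ k = 1) →
      ∃ v : ℤ[X], G ∣ v ∧ v.natDegree ≤ W * n ∧ (∀ i, |v.coeff i| ≤ 2 ^ n) ∧
        Real.exp (-(C' * n)) ≤ ‖aeval z v‖ := by
  intro n
  induction n using Nat.strong_induction_on with
  | _ n ih =>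
  intro hng G hG hdeg hroots
  rcases Nat.eq_zero_or_pos n with hn | hn
  · subst hn
    rw [hG.natDegree_eq_zero] at hdeg
    refine ⟨1, by rw [hdeg], by simp, ?_, by simp⟩
    intro i
    rw [coeff_one]
    split_ifs <;> simp
  · obtain ⟨α, hα⟩ : ∃ α : ℂ, aeval α G = 0 := by
      obtain ⟨α, hα⟩ := IsAlgClosed.exists_root (G.map (Int.castRingHom ℂ)) (by
        rw [hG.degree_map, degree_eq_natDegree hG.ne_zero, hdeg]
        exact_mod_cast hn.ne')
      refine ⟨α, ?_⟩
      rw [IsRoot, eval_map] at hα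
      rw [aeval_def]
      exact hα
    rcases hroots α hα with h0 | ⟨k, hk, hαk⟩
    · -- the root `0`
      subst h0
      have hc : G.coeff 0 = 0 := by
        rw [← coeff_zero_eq_aeval_zero'] at hα
        simpa using hα
      obtain ⟨G1, hG1⟩ := X_dvd_iff.2 hc
      have hG1m : G1.Monic := by
        rw [hG1] at hG
        exact monic_X.of_mul_monic_left hG
      have hdeg1 : G1.natDegree = n - 1 := by
        have : G.natDegree = 1 + G1.natDegree := by
          rw [hG1, natDegree_X_mul hG1m.ne_zero, add_comm]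
        omega
      obtain ⟨v, hv1, hv2, hv3, hv4⟩ := ih (n - 1) (by omega) (by omega) G1 hG1m hdeg1 (by
        intro β hβ
        apply hroots β
        rw [hG1, map_mul, hβ, mul_zero])
      refine ⟨X * v, ?_, ?_, ?_, ?_⟩
      · rw [hG1]; exact mul_dvd_mul_left X hv1
      · have h1 : (X * v).natDegree ≤ 1 + v.natDegree := by
          refine natDegree_mul_le.trans ?_
          rw [natDegree_X]
        have h2 : W * n = W * (n - 1) + W := by
          obtain ⟨m, rfl⟩ := Nat.exists_eq_succ_of_ne_zero hn.ne'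
          simp [Nat.mul_succ]
        omega
      · intro i
        have h2 : (2 : ℤ) ^ (n - 1) ≤ 2 ^ n := pow_le_pow_right₀ (by norm_num) (by omega)
        cases i with
        | zero => simp
        | succ i => rw [coeff_X_mul]; exact (hv3 i).trans h2
      · rw [map_mul, aeval_X, norm_mul, hz, one_mul]
        refine le_trans ?_ hv4
        apply Real.exp_le_exp.2
        have : ((n - 1 : ℕ) : ℝ) ≤ n := by exact_mod_cast Nat.sub_le _ _
        nlinarith
    · -- a root of unity
      set q := orderOf α with hq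
      have hprim : IsPrimitiveRoot α q := IsPrimitiveRoot.orderOf α
      have hq0 : 0 < q := by
        rw [hq, orderOf_pos_iff, isOfFinOrder_iff_pow_eq_one]
        exact ⟨k, hk, hαk⟩
      have hint : IsIntegral ℤ α := ⟨G, hG, by rw [← aeval_def]; exact hα⟩
      obtain ⟨G1, hG1⟩ : cyclotomic q ℤ ∣ G := by
        rw [cyclotomic_eq_minpoly hprim hq0]
        exact minpoly.isIntegrallyClosed_dvd hint hα
      have hG1m : G1.Monic := by
        rw [hG1] at hG
        exact (cyclotomic.monic q ℤ).of_mul_monic_left hG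
      have hdegsum : n = q.totient + G1.natDegree := by
        rw [← hdeg, hG1, (cyclotomic.monic q ℤ).natDegree_mul hG1m, natDegree_cyclotomic]
      have htot : 0 < q.totient := Nat.totient_pos.2 hq0
      obtain ⟨v, hv1, hv2, hv3, hv4⟩ := ih G1.natDegree (by omega) (by omega) G1 hG1m rfl (by
        intro β hβ
        apply hroots β
        rw [hG1, map_mul, hβ, mul_zero])
      refine ⟨(X ^ q - 1) * v, ?_, ?_, ?_, ?_⟩
      · rw [hG1]; exact mul_dvd_mul (cyclotomic.dvd_X_pow_sub_one q ℤ) hv1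
      · have h1 : ((X ^ q - 1) * v : ℤ[X]).natDegree ≤ q + v.natDegree := by
          refine natDegree_mul_le.trans ?_
          have : (X ^ q - 1 : ℤ[X]).natDegree ≤ q := by
            have := natDegree_X_pow_sub_C (R := ℤ) (n := q) (r := 1)
            rw [C_1] at this
            exact this.le
          omega
        have h2 := hW q hq0 (by omega)
        have h3 : W * n = q.totient * W + W * G1.natDegree := by rw [hdegsum]; ring
        omega
      · intro i
        have e1 : ((X ^ q - 1) * v : ℤ[X]).coeff i = (X ^ q * v).coeff i - v.coeff i := by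
          rw [sub_mul, one_mul, coeff_sub]
        have h2 : |(X ^ q * v).coeff i| ≤ 2 ^ G1.natDegree := by
          rw [coeff_X_pow_mul']
          split_ifs
          · exact hv3 _
          · simp
        have h3 : (2 : ℤ) ^ G1.natDegree + 2 ^ G1.natDegree ≤ 2 ^ n := by
          calc (2 : ℤ) ^ G1.natDegree + 2 ^ G1.natDegree = 2 ^ (G1.natDegree + 1) := by ring
            _ ≤ 2 ^ n := pow_le_pow_right₀ (by norm_num) (by omega)
        rw [e1]
        calc |(X ^ q * v).coeff i - v.coeff i| ≤ |(X ^ q * v).coeff i| + |v.coeff i| := abs_sub _ _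
          _ ≤ 2 ^ G1.natDegree + 2 ^ G1.natDegree := add_le_add h2 (hv3 i)
          _ ≤ _ := h3
      · rw [map_mul, norm_mul]
        have h2 := hC' q hq0
        have h3 : ‖aeval z (X ^ q - 1 : ℤ[X])‖ = ‖z ^ q - 1‖ := by simp
        rw [h3]
        calc Real.exp (-(C' * n)) = Real.exp (-(C' * q.totient)) * Real.exp (-(C' * G1.natDegree)) := by
              rw [← Real.exp_add]
              congr 1
              rw [hdegsum]; push_cast; ring
          _ ≤ _ := mul_le_mul h2 hv4 (Real.exp_pos _).le (norm_nonneg _)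

end Pool.Agent.Helper181_DPV
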