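import Pool.Agent.Helper181_DPV.Cyc

/-!
The Diophantine condition.
-/

set_option autoImplicit false

open Finset Polynomial

namespace Pool.Agent.Helper181_DPV

/-- Condition (D.C.-m). -/
def DC (m θ : ℝ) : Prop :=
  ∃ q₀ : ℕ, ∀ q : ℕ, q₀ ≤ q → ∀ p : ℤ, (q : ℝ) ^ (-m) ≤ |θ - 2 * Real.pi * p / q|

lemma dc_all (m θ : ℝ) (h : DC m θ) :
    ∃ q₀ : ℕ, 1 ≤ q₀ ∧ ∀ q : ℕ, 0 < q → ∀ p : ℤ,
      ((q₀ * q : ℕ) : ℝ) ^ (-m) ≤ |θ - 2 * Real.pi * p / q| := by
  obtain ⟨q₀, hq⟩ := h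
  refine ⟨q₀ + 1, by omega, ?_⟩
  intro q hq0 p
  have h1 := hq ((q₀ + 1) * q) (by nlinarith) (((q₀ + 1 : ℕ) : ℤ) * p)
  refine h1.trans (le_of_eq ?_)
  congr 2
  have h2 : ((q₀ + 1 : ℕ) : ℝ) ≠ 0 := by positivity
  have h3 : (q : ℝ) ≠ 0 := by positivity
  push_cast at h2 ⊢
  field_simp

lemma exC (m θ : ℝ) (hm : 0 < m) (h : DC m θ) :
    ∃ C' : ℝ, 0 ≤ C' ∧ ∀ q : ℕ, 0 < q →
      Real.exp (-(C' * q.totient)) ≤ ‖Complex.exp (Complex.I * θ) ^ q - 1‖ := by
  obtain ⟨q₀, hq₀, hq⟩ := dc_all m θ h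
  have hq₀R : (1 : ℝ) ≤ q₀ := by exact_mod_cast hq₀
  have hlq₀ : 0 ≤ Real.log q₀ := Real.log_nonneg hq₀R
  refine ⟨1 + m * (Real.log q₀ + 4), by positivity, ?_⟩
  intro q hq0
  have hqR : (1 : ℝ) ≤ q := by exact_mod_cast hq0
  set p : ℤ := round (q * θ / (2 * Real.pi)) with hp
  set y : ℝ := q * θ - 2 * Real.pi * p with hy
  have hpi := Real.pi_pos
  have hyb : |y| ≤ Real.pi := by
    have h1 := abs_sub_round (q * θ / (2 * Real.pi))
    have h2 : y = 2 * Real.pi * (q * θ / (2 * Real.pi) - p) := by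
      rw [hy]; field_simp
    rw [h2, abs_mul, abs_of_pos (by positivity)]
    rw [← hp] at h1
    nlinarith
  have hz : Complex.exp (Complex.I * θ) ^ q = Complex.exp (Complex.I * y) := by
    rw [← Complex.exp_nat_mul, Complex.exp_eq_exp_iff_exists_int]
    refine ⟨p, ?_⟩
    rw [hy]
    push_cast
    ring
  have hlow : ((q₀ * q : ℕ) : ℝ) ^ (-m) ≤ |y| := by
    have h1 := hq q hq0 p
    have h2 : |y| = q * |θ - 2 * Real.pi * p / q| := by
      rw [← abs_of_pos (show (0 : ℝ) < q by linarith), ← abs_mul, abs_of_pos (show (0 : ℝ) < q by linarith)]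
      congr 1
      rw [hy]
      field_simp
    rw [h2]
    refine h1.trans ?_
    nlinarith [abs_nonneg (θ - 2 * Real.pi * p / q)]
  have hsin : ‖Complex.exp (Complex.I * y) - 1‖ ≥ 1 / 2 * |y| := by
    rw [Complex.norm_exp_I_mul_ofReal_sub_one, norm_mul, Real.norm_eq_abs, Real.norm_eq_abs]
    have h1 : |y / 2| ≤ Real.pi / 2 := by rw [abs_div, abs_two]; linarith
    have h2 := Real.mul_abs_le_abs_sin h1
    rw [abs_div, abs_two] at h2
    rw [abs_two]
    have h3 : 2 / Real.pi * (|y| / 2) ≥ 1 / 4 * |y| := by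
      have : 1 / 4 ≤ 1 / Real.pi := one_div_le_one_div_of_le hpi Real.pi_lt_four.le
      calc 2 / Real.pi * (|y| / 2) = 1 / Real.pi * |y| := by ring
        _ ≥ 1 / 4 * |y| := mul_le_mul_of_nonneg_right this (abs_nonneg y)
    linarith
  rw [hz]
  refine le_trans ?_ (le_trans (mul_le_mul_of_nonneg_left hlow (by norm_num)) hsin)
  -- log comparison
  have hQ : (0 : ℝ) < ((q₀ * q : ℕ) : ℝ) := by push_cast; positivity
  have htot : (1 : ℝ) ≤ q.totient := by exact_mod_cast Nat.totient_pos.2 hq0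
  have h4 : Real.log ((q₀ * q : ℕ) : ℝ) ≤ Real.log q₀ + 2 + 2 * q.totient := by
    push_cast
    rw [Real.log_mul (by positivity) (by positivity)]
    have h5 : Real.log q ≤ Real.log (4 * (q.totient : ℝ) ^ 2) := by
      apply Real.log_le_log (by linarith)
      exact_mod_cast le_totient_sq q hq0
    have h6 : Real.log (4 * (q.totient : ℝ) ^ 2) = Real.log 4 + 2 * Real.log q.totient := by
      rw [Real.log_mul (by norm_num) (by positivity), Real.log_pow]
      push_cast; ring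
    have h7 : Real.log q.totient ≤ q.totient := (Real.log_le_sub_one_of_pos (by linarith)).trans (by linarith)
    have h8 : Real.log 4 ≤ 2 := by
      have : Real.log 4 = 2 * Real.log 2 := by
        rw [show (4 : ℝ) = 2 ^ 2 by norm_num, Real.log_pow]; push_cast; ring
      have h9 := Real.log_two_lt_d9
      rw [this]; linarith
    linarith
  have h10 : 1 / 2 * ((q₀ * q : ℕ) : ℝ) ^ (-m) =
      Real.exp (-(Real.log 2 + m * Real.log ((q₀ * q : ℕ) : ℝ))) := by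
    rw [neg_add, Real.exp_add, Real.exp_neg, Real.exp_log (by norm_num), Real.rpow_def_of_pos hQ]
    congr 1
    · norm_num
    · congr 1; ring
  rw [h10]
  apply Real.exp_le_exp.2
  have h11 := Real.log_two_lt_d9
  have h12 : m * Real.log ((q₀ * q : ℕ) : ℝ) ≤ m * (Real.log q₀ + 2 + 2 * q.totient) :=
    mul_le_mul_of_nonneg_left h4 hm.le
  have h13 : m * (Real.log q₀ + 2) ≤ m * (Real.log q₀ + 2) * q.totient :=
    le_mul_of_one_le_right (by positivity) htot
  have h14 : (1 + m * (Real.log q₀ + 4)) * (q.totient : ℝ) =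
      q.totient + m * (Real.log q₀ + 2) * q.totient + m * (2 * q.totient) := by ring
  rw [h14]
  have h15 : m * (Real.log q₀ + 2 + 2 * q.totient) =
      m * (Real.log q₀ + 2) + m * (2 * q.totient) := by ring
  rw [h15] at h12
  linarith

lemma sin_ne_zero_of_dc (m θ : ℝ) (h : DC m θ) : Real.sin θ ≠ 0 := by
  obtain ⟨q₀, hq₀, hq⟩ := dc_all m θ h
  intro h0
  rw [Real.sin_eq_zero_iff] at h0
  obtain ⟨k, hk⟩ := h0
  have h1 := hq 2 (by norm_num) k
  have h2 : θ - 2 * Real.pi * k / (2 : ℕ) = 0 := by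
    rw [← hk]; push_cast; ring
  rw [h2, abs_zero] at h1
  have h3 : (0 : ℝ) < ((q₀ * 2 : ℕ) : ℝ) ^ (-m) := by
    apply Real.rpow_pos_of_pos
    have : (0 : ℝ) < q₀ := by exact_mod_cast hq₀
    push_cast
    positivity
  linarith

lemma ae_dc (m : ℝ) (hm : 2 < m) : ∀ᵐ θ : ℝ, DC m θ := by
  have h1 := ae_not_liouvilleWith
  have h2 : ∀ᵐ x : ℝ, Irrational x := by
    have := (Set.countable_range ((↑) : ℚ → ℝ)).ae_notMem MeasureTheory.volume
    exact this
  have h3 : ∀ᵐ x : ℝ, (∀ p > 2, ¬LiouvilleWith p x) ∧ Irrational x := h1.and h2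
  have h4 : ∀ᵐ θ : ℝ, (∀ p > 2, ¬LiouvilleWith p ((2 * Real.pi)⁻¹ * θ)) ∧
      Irrational ((2 * Real.pi)⁻¹ * θ) := by
    rw [MeasureTheory.ae_iff] at h3 ⊢
    have h5 := Real.volume_preimage_mul_left (a := (2 * Real.pi)⁻¹) (by positivity)
      {x : ℝ | ¬((∀ p > 2, ¬LiouvilleWith p x) ∧ Irrational x)}
    rw [h3, mul_zero] at h5
    exact h5
  filter_upwards [h4] with θ hθ
  obtain ⟨h5, h6⟩ := hθ
  have h7 := h5 m hm
  unfold LiouvilleWith at h7
  push Not at h7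
  have h8 := h7 1
  rw [Filter.eventually_atTop] at h8
  obtain ⟨q₀, hq₀⟩ := h8
  refine ⟨q₀ + 1, ?_⟩
  intro q hq p
  have h9 := hq₀ q (by omega) p (by
    intro h
    apply h6
    exact ⟨(p : ℚ) / q, by push_cast; exact h.symm⟩)
  have hq0 : (0 : ℝ) < q := by
    have : 0 < q := by omega
    exact_mod_cast this
  have h10 : θ - 2 * Real.pi * p / q = 2 * Real.pi * ((2 * Real.pi)⁻¹ * θ - p / q) := by
    field_simp
  rw [h10, abs_mul, abs_of_pos (by positivity), Real.rpow_neg hq0.le]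
  have h11 : ((q : ℝ) ^ m)⁻¹ ≤ |(2 * Real.pi)⁻¹ * θ - p / q| := by
    rw [← one_div]; exact h9
  have h12 : (1 : ℝ) ≤ 2 * Real.pi := by linarith [Real.pi_gt_three]
  have h13 := abs_nonneg ((2 * Real.pi)⁻¹ * θ - p / q)
  nlinarith

end Pool.Agent.Helper181_DPV
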