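import Pool.Agent.Helper181_DPV.Comb

/-!
Integer polynomials with a value of prescribed size at a point.
-/

set_option autoImplicit false

open Finset Polynomial

namespace Pool.Agent.Helper181_DPV

lemma aeval_C_mul_map (z : ℂ) (a : ℚ) (P : ℤ[X]) :
    aeval z (C a * P.map (algebraMap ℤ ℚ)) = (a : ℂ) * aeval z P := by
  rw [map_mul, aeval_map_algebraMap, aeval_C, eq_ratCast]

lemma exL (z : ℂ) (hz : ‖z‖ = 1) (M₁ M₂ v : ℤ[X]) (g b D V : ℕ) (hM1d : M₁.natDegree < g)
    (hM1c : ∀ i, |M₁.coeff i| ≤ b) (hM20 : M₂ ≠ 0) (hM2d : M₂.natDegree < D)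
    (hM2c : ∀ i, |M₂.coeff i| ≤ 1) (δ r T : ℝ) (hδ1 : ‖aeval z M₁‖ ≤ δ) (hδ2 : ‖aeval z M₂‖ ≤ δ)
    (A₁ A₂ : ℚ[X])
    (hv : v.map (algebraMap ℤ ℚ) = A₁ * M₁.map (algebraMap ℤ ℚ) + A₂ * M₂.map (algebraMap ℤ ℚ))
    (hV : v.natDegree ≤ V) (hT : 0 ≤ T) (hw : 2 * r ≤ T * ‖aeval z v‖) (hr : 0 < r)
    (hc : 3 * ((D + (V + g + 1) : ℕ) : ℝ) * δ ≤ r / 2)
    (hvc : T * ∑ h ∈ range (V + g + 1 + D), |(v.coeff h : ℝ)| ≤ 1) :
    ∃ L : ℤ[X], r / 2 ≤ ‖aeval z L‖ ∧ ‖aeval z L‖ < r ∧ L.natDegree < V + g + 1 + D ∧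
      ∑ h ∈ range (V + g + 1 + D), |(L.coeff h : ℝ)| ≤
        1 + Real.sqrt (((V + g + 1 + D : ℕ) : ℝ) *
          ((D : ℝ) * ((g : ℝ) * (b : ℝ) ^ 2) + ((V + g + 1 : ℕ) : ℝ) * D)) := by
  classical
  set M1q := M₁.map (algebraMap ℤ ℚ) with hM1q
  set M2q := M₂.map (algebraMap ℤ ℚ) with hM2q
  set vq := v.map (algebraMap ℤ ℚ) with hvq
  have hinj : Function.Injective (algebraMap ℤ ℚ) := (algebraMap ℤ ℚ).injective_int
  have hM2q0 : M2q ≠ 0 := by rw [hM2q, Ne, Polynomial.map_eq_zero_iff hinj]; exact hM20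
  have hM1qd : M1q.natDegree = M₁.natDegree := natDegree_map_eq_of_injective hinj _
  have hM2qd : M2q.natDegree = M₂.natDegree := natDegree_map_eq_of_injective hinj _
  have hvqd : vq.natDegree = v.natDegree := natDegree_map_eq_of_injective hinj _
  set B₁ := A₁ % M2q with hB1
  set B₂ := A₂ + (A₁ / M2q) * M1q with hB2
  have hdm : M2q * (A₁ / M2q) + B₁ = A₁ := EuclideanDomain.div_add_mod A₁ M2q
  have hv' : vq = B₁ * M1q + B₂ * M2q := by
    have e : A₁ * M1q = (M2q * (A₁ / M2q) + B₁) * M1q := by rw [hdm]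
    rw [hv, hB2, e]; ring
  have hB1d : B₁.degree < M2q.degree := degree_mod_lt A₁ hM2q0
  have hB1n : B₁.natDegree ≤ M₂.natDegree := by
    rw [← hM2qd]; exact natDegree_le_natDegree hB1d.le
  have hB1D : B₁.natDegree < D := by omega
  have hB2n : B₂.natDegree < V + g + 1 := by
    by_cases h0 : B₂ = 0
    · rw [h0]; simp
    · have h1 : B₂ * M2q = vq - B₁ * M1q := by rw [hv']; ring
      have h2 : (B₂ * M2q).natDegree = B₂.natDegree + M2q.natDegree := natDegree_mul h0 hM2q0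
      have h3 : (vq - B₁ * M1q).natDegree ≤ max vq.natDegree (B₁ * M1q).natDegree :=
        natDegree_sub_le _ _
      have h4 : (B₁ * M1q).natDegree ≤ B₁.natDegree + M1q.natDegree := natDegree_mul_le
      rw [h1] at h2
      rcases le_max_iff.1 h3 with h5 | h5 <;> omega
  -- the polynomial identity
  have hid : vq = ∑ j ∈ range D, C (B₁.coeff j) * (X ^ j * M₁).map (algebraMap ℤ ℚ) +
      ∑ k ∈ range (V + g + 1), C (B₂.coeff k) * (X ^ k * M₂).map (algebraMap ℤ ℚ) := by
    conv_lhs => rw [hv', as_sum_range_C_mul_X_pow' B₁ hB1D, as_sum_range_C_mul_X_pow' B₂ hB2n]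
    rw [sum_mul, sum_mul]
    congr 1
    · refine sum_congr rfl fun j _ => ?_
      rw [Polynomial.map_mul, Polynomial.map_pow, map_X]; ring
    · refine sum_congr rfl fun j _ => ?_
      rw [Polynomial.map_mul, Polynomial.map_pow, map_X]; ring
  set N : Fin D ⊕ Fin (V + g + 1) → ℤ[X] :=
    Sum.elim (fun j => X ^ (j : ℕ) * M₁) (fun k => X ^ (k : ℕ) * M₂) with hN
  set y : Fin D ⊕ Fin (V + g + 1) → ℝ :=
    Sum.elim (fun j => T * ((B₁.coeff j : ℚ) : ℝ)) (fun k => T * ((B₂.coeff k : ℚ) : ℝ)) with hy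
  have hval : ∑ i, (y i : ℂ) * aeval z (N i) = (T : ℂ) * aeval z v := by
    rw [Fintype.sum_sum_type]
    simp only [hN, hy, Sum.elim_inl, Sum.elim_inr]
    have h1 : aeval z v = aeval z vq := (aeval_map_algebraMap ℚ z v).symm
    rw [h1, hid, map_add, map_sum, map_sum, mul_add, mul_sum, mul_sum]
    congr 1
    · rw [Finset.sum_range]
      refine sum_congr rfl fun j _ => ?_
      rw [aeval_C_mul_map]
      push_cast
      ring
    · rw [Finset.sum_range]
      refine sum_congr rfl fun j _ => ?_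
      rw [aeval_C_mul_map]
      push_cast
      ring
  have hcoef : ∀ h, ∑ i, y i * ((N i).coeff h : ℝ) = T * (v.coeff h : ℝ) := by
    intro h
    rw [Fintype.sum_sum_type]
    simp only [hN, hy, Sum.elim_inl, Sum.elim_inr]
    have h1 : ((v.coeff h : ℤ) : ℝ) = ((vq.coeff h : ℚ) : ℝ) := by
      rw [hvq, coeff_map, eq_intCast]; push_cast; rfl
    rw [h1, hid, coeff_add, finsetSum_coeff, finsetSum_coeff]
    push_cast
    rw [mul_add, mul_sum, mul_sum]
    congr 1
    · rw [Finset.sum_range]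
      refine sum_congr rfl fun j _ => ?_
      rw [coeff_C_mul, coeff_map, eq_intCast]
      push_cast
      ring
    · rw [Finset.sum_range]
      refine sum_congr rfl fun j _ => ?_
      rw [coeff_C_mul, coeff_map, eq_intCast]
      push_cast
      ring
  obtain ⟨L, h1, h2, h3, h4⟩ := exL0 z N y δ r
    ((D : ℝ) * ((g : ℝ) * (b : ℝ) ^ 2) + ((V + g + 1 : ℕ) : ℝ) * D) (V + g + 1 + D)
    (by
      rintro (j | k)
      · simp only [hN, Sum.elim_inl]
        rw [map_mul, map_pow, aeval_X, norm_mul, norm_pow, hz, one_pow, one_mul]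
        exact hδ1
      · simp only [hN, Sum.elim_inr]
        rw [map_mul, map_pow, aeval_X, norm_mul, norm_pow, hz, one_pow, one_mul]
        exact hδ2) hr
    (by
      rw [Fintype.card_sum, Fintype.card_fin, Fintype.card_fin]
      exact hc)
    (by
      rw [Fintype.sum_sum_type]
      simp only [hN, Sum.elim_inl, Sum.elim_inr]
      apply add_le_add
      · calc _ ≤ ∑ _j : Fin D, ((g : ℝ) * (b : ℝ) ^ 2) :=
              sum_le_sum fun j _ => sqsum M₁ g b hM1d hM1c j _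
          _ = _ := by rw [sum_const, card_univ, Fintype.card_fin, nsmul_eq_mul]
      · calc _ ≤ ∑ _j : Fin (V + g + 1), ((D : ℝ) * ((1 : ℕ) : ℝ) ^ 2) :=
              sum_le_sum fun j _ => sqsum M₂ D 1 hM2d (by exact_mod_cast hM2c) j _
          _ = _ := by rw [sum_const, card_univ, Fintype.card_fin, nsmul_eq_mul]; simp)
    (by
      rintro (j | k)
      · simp only [hN, Sum.elim_inl]
        refine natDegree_mul_le.trans_lt ?_
        rw [natDegree_X_pow]
        have := j.2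
        omega
      · simp only [hN, Sum.elim_inr]
        refine natDegree_mul_le.trans_lt ?_
        rw [natDegree_X_pow]
        have := k.2
        omega)
    (by
      rw [hval, norm_mul, Complex.norm_real, Real.norm_eq_abs, abs_of_nonneg hT]
      exact hw)
  refine ⟨L, h1, h2, h3, h4.trans ?_⟩
  apply add_le_add _ le_rfl
  refine le_trans (le_of_eq ?_) hvc
  rw [mul_sum]
  refine sum_congr rfl fun h _ => ?_
  rw [hcoef, abs_mul, abs_of_nonneg hT]

end Pool.Agent.Helper181_DPV
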