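import Mathlib

/-!
The greatest common divisor of two integer polynomials one of which has coefficients `-1, 0, 1`.
-/

set_option autoImplicit false

open Finset Polynomial

namespace Pool.Agent.Helper181_DPV

lemma exG (M₁ M₂ : ℤ[X]) (hM1 : M₁ ≠ 0) (hM2 : M₂ ≠ 0) (hM2c : ∀ i, |M₂.coeff i| ≤ 1) :
    ∃ G : ℤ[X], G.Monic ∧ G.natDegree ≤ M₁.natDegree ∧
      (∀ α : ℂ, aeval α G = 0 → aeval α M₁ = 0 ∧ aeval α M₂ = 0) ∧
      ∃ U₁ U₂ : ℚ[X], G.map (algebraMap ℤ ℚ) =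
        U₁ * M₁.map (algebraMap ℤ ℚ) + U₂ * M₂.map (algebraMap ℤ ℚ) := by
  classical
  have hinj : Function.Injective (algebraMap ℤ ℚ) := (algebraMap ℤ ℚ).injective_int
  set M1q := M₁.map (algebraMap ℤ ℚ) with hM1q
  set M2q := M₂.map (algebraMap ℤ ℚ) with hM2q
  have hM1q0 : M1q ≠ 0 := by rw [hM1q, Ne, Polynomial.map_eq_zero_iff hinj]; exact hM1
  have hM2q0 : M2q ≠ 0 := by rw [hM2q, Ne, Polynomial.map_eq_zero_iff hinj]; exact hM2
  set gq := EuclideanDomain.gcd M1q M2q with hgq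
  have hg1 : gq ∣ M1q := EuclideanDomain.gcd_dvd_left _ _
  have hg2 : gq ∣ M2q := EuclideanDomain.gcd_dvd_right _ _
  have hg0 : gq ≠ 0 := fun h => hM2q0 (zero_dvd_iff.1 (h ▸ hg2))
  set l := M₂.leadingCoeff with hl
  have hl0 : l ≠ 0 := leadingCoeff_ne_zero.2 hM2
  have hl1 : |l| ≤ 1 := hM2c _
  have hll : l * l = 1 := by
    have h1 : |l| = 1 := le_antisymm hl1 (Int.one_le_abs hl0)
    have h2 : l * l = |l| * |l| := (abs_mul_abs_self l).symm
    rw [h2, h1]; norm_num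
  set M₂' : ℤ[X] := C l * M₂ with hM2'
  have hM2'm : M₂'.Monic := by
    rw [Monic, hM2', leadingCoeff_mul, leadingCoeff_C, ← hl, hll]
  have hd : gq ∣ M₂'.map (algebraMap ℤ ℚ) := by
    rw [hM2', Polynomial.map_mul]
    exact hg2.mul_left _
  obtain ⟨G, hG⟩ := IsIntegrallyClosed.eq_map_mul_C_of_dvd ℚ hM2'm hd
  have hlg : gq.leadingCoeff ≠ 0 := leadingCoeff_ne_zero.2 hg0
  have hGm : G.map (algebraMap ℤ ℚ) = C (gq.leadingCoeff)⁻¹ * gq := by
    conv_rhs => rw [← hG]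
    have : C (gq.leadingCoeff)⁻¹ * C gq.leadingCoeff = (1 : ℚ[X]) := by
      rw [← C_mul, inv_mul_cancel₀ hlg, C_1]
    calc G.map (algebraMap ℤ ℚ) = (C (gq.leadingCoeff)⁻¹ * C gq.leadingCoeff) * G.map (algebraMap ℤ ℚ) := by
          rw [this, one_mul]
      _ = _ := by
          rw [hG]
          conv_lhs => rw [mul_assoc, mul_comm (C gq.leadingCoeff), hG]
  have hGmonic : G.Monic := by
    apply monic_of_injective hinj
    rw [Monic, hGm, leadingCoeff_mul, leadingCoeff_C, inv_mul_cancel₀ hlg]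
  have hdvd1 : G.map (algebraMap ℤ ℚ) ∣ M1q := by
    rw [hGm]
    have hu : IsUnit (C (gq.leadingCoeff)⁻¹ : ℚ[X]) := by
      rw [isUnit_C]; exact (inv_ne_zero hlg).isUnit
    exact (hu.mul_left_dvd).2 hg1
  have hdvd2 : G.map (algebraMap ℤ ℚ) ∣ M2q := by
    rw [hGm]
    have hu : IsUnit (C (gq.leadingCoeff)⁻¹ : ℚ[X]) := by
      rw [isUnit_C]; exact (inv_ne_zero hlg).isUnit
    exact (hu.mul_left_dvd).2 hg2
  refine ⟨G, hGmonic, ?_, ?_, ?_⟩
  · rw [← natDegree_map_eq_of_injective hinj G, ← natDegree_map_eq_of_injective hinj M₁]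
    exact natDegree_le_of_dvd hdvd1 hM1q0
  · intro α hα
    have h1 : aeval α (G.map (algebraMap ℤ ℚ)) = 0 := by rw [aeval_map_algebraMap]; exact hα
    obtain ⟨P1, hP1⟩ := hdvd1
    obtain ⟨P2, hP2⟩ := hdvd2
    constructor
    · rw [← aeval_map_algebraMap ℚ, ← hM1q, hP1, map_mul, h1, zero_mul]
    · rw [← aeval_map_algebraMap ℚ, ← hM2q, hP2, map_mul, h1, zero_mul]
  · refine ⟨C (gq.leadingCoeff)⁻¹ * EuclideanDomain.gcdA M1q M2q,
      C (gq.leadingCoeff)⁻¹ * EuclideanDomain.gcdB M1q M2q, ?_⟩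
    rw [hGm, hgq, EuclideanDomain.gcd_eq_gcd_ab M1q M2q]
    ring

end Pool.Agent.Helper181_DPV
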