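import Pool.Agent.Helper181_DPV.Small

/-!
Large sets of exponents on which powers of an algebraic integer have distinct subset sums.
-/

set_option autoImplicit false

open Finset Polynomial

namespace Pool.Agent.Helper181_DPV

lemma exJ : ∃ c : ℝ, 0 < c ∧ ∀ α : ℂ, IsIntegral ℤ α → α ≠ 0 → (∀ n : ℕ, 0 < n → α ^ n ≠ 1) →
    ∀ g D Λ : ℕ, (minpoly ℚ α).natDegree ≤ g → 1 ≤ Λ →
    Real.log D * (Real.log (2 * g)) ^ 3 < ((Λ : ℝ) - 1) * c →
    ∃ J ⊆ range D, D ≤ Λ * (J.card + g) ∧
      ∀ S ⊆ range D, ∀ S' ⊆ range D, S \ J = S' \ J →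
        ∑ j ∈ S, α ^ j = ∑ j ∈ S', α ^ j → S = S' := by
  classical
  obtain ⟨c, hc0, hc⟩ := blocksC
  refine ⟨c, hc0, ?_⟩
  intro α hα h0 hroot g D Λ hdg hΛ hbig
  have hint : IsIntegral ℚ α := hα.tower_top
  set d := (minpoly ℚ α).natDegree with hd
  have hd1 : 0 < d := minpoly.natDegree_pos hint
  set N := D / (d * Λ) with hN
  have hdΛ : 0 < d * Λ := Nat.mul_pos hd1 hΛ
  have hND : N * (d * Λ) ≤ D := Nat.div_mul_le_self D (d * Λ)
  set φ : ℕ × ℕ → ℕ := fun x => x.1 * (d * Λ) + x.2 with hφ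
  have hφinj : Set.InjOn φ (range N ×ˢ range d : Finset (ℕ × ℕ)) := by
    rintro ⟨i, j⟩ h1 ⟨i', j'⟩ h2 h3
    simp only [coe_product, Set.mem_prod, coe_range, Set.mem_Iio] at h1 h2
    simp only [hφ] at h3
    have hj : j < d * Λ := lt_of_lt_of_le h1.2 (Nat.le_mul_of_pos_right d hΛ)
    have hj' : j' < d * Λ := lt_of_lt_of_le h2.2 (Nat.le_mul_of_pos_right d hΛ)
    have h4 : i = i' := by
      have e1 : (i * (d * Λ) + j) / (d * Λ) = i := by
        rw [mul_comm, Nat.mul_add_div hdΛ, Nat.div_eq_of_lt hj, add_zero]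
      have e2 : (i' * (d * Λ) + j') / (d * Λ) = i' := by
        rw [mul_comm, Nat.mul_add_div hdΛ, Nat.div_eq_of_lt hj', add_zero]
      rw [← e1, h3, e2]
    subst h4
    have h5 : j = j' := by omega
    rw [h5]
  set J := (range N ×ˢ range d).image φ with hJ
  have hJD : J ⊆ range D := by
    intro k hk
    rw [hJ, mem_image] at hk
    obtain ⟨⟨i, j⟩, h1, rfl⟩ := hk
    rw [mem_product, mem_range, mem_range] at h1
    rw [mem_range]
    have h2 : (i + 1) * (d * Λ) ≤ N * (d * Λ) := Nat.mul_le_mul_right _ h1.1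
    have hj : j < d * Λ := lt_of_lt_of_le h1.2 (Nat.le_mul_of_pos_right d hΛ)
    simp only [hφ]
    calc i * (d * Λ) + j < i * (d * Λ) + d * Λ := by omega
      _ = (i + 1) * (d * Λ) := by ring
      _ ≤ D := h2.trans hND
  have hJc : J.card = N * d := by
    rw [hJ, card_image_of_injOn hφinj, card_product, card_range, card_range]
  refine ⟨J, hJD, ?_, ?_⟩
  · rw [hJc]
    have h1 : D < (N + 1) * (d * Λ) := by
      have := Nat.lt_div_mul_add hdΛ (a := D)
      calc D < D / (d * Λ) * (d * Λ) + d * Λ := this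
        _ = (N + 1) * (d * Λ) := by rw [hN]; ring
    calc D ≤ (N + 1) * (d * Λ) := h1.le
      _ = Λ * (N * d + d) := by ring
      _ ≤ Λ * (N * d + g) := Nat.mul_le_mul_left _ (by omega)
  · intro S hS S' hS' hSJ hsum
    have hbig' : Real.log (N * d) < ((Λ : ℝ) - 1) * (c / (Real.log (2 * d)) ^ 3) := by
      have hdR : (1 : ℝ) ≤ d := by exact_mod_cast hd1
      have hl0 : 0 < Real.log (2 * d) := Real.log_pos (by linarith)
      have hl1 : Real.log (2 * d) ≤ Real.log (2 * g) := by
        apply Real.log_le_log (by linarith)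
        have : (d : ℝ) ≤ g := by exact_mod_cast hdg
        linarith
      have hl2 : Real.log (N * d) ≤ Real.log D := by
        rcases Nat.eq_zero_or_pos N with h | h
        · rw [h, Nat.cast_zero, zero_mul, Real.log_zero]
          exact Real.log_natCast_nonneg D
        · apply Real.log_le_log
          · have : (0 : ℝ) < N := by exact_mod_cast h
            positivity
          · have : N * d ≤ D := by
              refine le_trans ?_ hND
              rw [← mul_assoc]
              exact Nat.le_mul_of_pos_right _ hΛ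
            exact_mod_cast this
      have hΛ1 : (0 : ℝ) ≤ (Λ : ℝ) - 1 := by
        have : (1 : ℝ) ≤ Λ := by exact_mod_cast hΛ
        linarith
      have h3 : (Real.log (2 * d)) ^ 3 ≤ (Real.log (2 * g)) ^ 3 := pow_le_pow_left₀ hl0.le hl1 3
      have h4 : 0 < (Real.log (2 * d)) ^ 3 := by positivity
      rw [mul_div_assoc', lt_div_iff₀ h4]
      refine lt_of_le_of_lt ?_ hbig
      exact mul_le_mul hl2 h3 h4.le (Real.log_natCast_nonneg D)
    set e : ℕ → ℕ → ℤ := fun i j =>
      (if i * (d * Λ) + j ∈ S then 1 else 0) - (if i * (d * Λ) + j ∈ S' then 1 else 0) with he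
    have he1 : ∀ i j, |e i j| ≤ 1 := by
      intro i j
      simp only [he]
      split_ifs <;> norm_num
    set w : ℕ → ℂ := fun k => ((if k ∈ S then 1 else 0) - (if k ∈ S' then 1 else 0)) * α ^ k with hw
    have hD0 : ∑ k ∈ range D, w k = 0 := by
      have h1 : ∀ U : Finset ℕ, U ⊆ range D →
          ∑ k ∈ range D, (if k ∈ U then (1 : ℂ) else 0) * α ^ k = ∑ k ∈ U, α ^ k := by
        intro U hU
        simp only [ite_mul, one_mul, zero_mul]
        rw [sum_ite_mem, inter_eq_right.2 hU]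
      simp only [hw, sub_mul, sum_sub_distrib]
      rw [h1 S hS, h1 S' hS', hsum, sub_self]
    have hJ0 : ∑ k ∈ J, w k = 0 := by
      rw [← hD0]
      refine sum_subset hJD fun k _ hkJ => ?_
      have : (k ∈ S ↔ k ∈ S') := by
        have h1 : k ∈ S \ J ↔ k ∈ S' \ J := by rw [hSJ]
        simpa [mem_sdiff, hkJ] using h1
      simp only [hw, this, sub_self, zero_mul]
    have hz := hc α hα h0 hroot Λ N hΛ (by rw [← hd]; exact hbig') e he1 (by
      rw [← hJ0, hJ, sum_image hφinj, sum_product]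
      refine sum_congr rfl fun i _ => sum_congr rfl fun j _ => ?_
      simp only [hw, he, hφ]
      push_cast
      rfl)
    have hJeq : ∀ k ∈ J, (k ∈ S ↔ k ∈ S') := by
      intro k hk
      rw [hJ, mem_image] at hk
      obtain ⟨⟨i, j⟩, h1, rfl⟩ := hk
      rw [mem_product, mem_range, mem_range] at h1
      have h2 := hz i h1.1 j h1.2
      simp only [he] at h2
      simp only [hφ]
      by_cases ha : i * (d * Λ) + j ∈ S <;> by_cases hb : i * (d * Λ) + j ∈ S' <;>
        simp [ha, hb] at h2 ⊢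
    ext k
    by_cases hk : k ∈ J
    · exact hJeq k hk
    · have h1 : k ∈ S \ J ↔ k ∈ S' \ J := by rw [hSJ]
      simpa [mem_sdiff, hk] using h1

end Pool.Agent.Helper181_DPV
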