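import Pool.Agent.Helper181_DPV.Scale
import Pool.Agent.Helper181_DPV.Cover

/-!
Stretched exponential lower bound for `R_DPV(n, θ)`.
-/

set_option autoImplicit false

open Finset Polynomial Filter

namespace Pool.Agent.Helper181_DPV

lemma ev_pow (Q : ℕ) : ∀ᶠ s : ℕ in atTop, 4 * 4 ^ Q * s ^ 8 ≤ 2 ^ s := by
  have h := tendsto_pow_const_div_const_pow_of_one_lt 8 (show (1 : ℝ) < 2 by norm_num)
  have h2 : ∀ᶠ s : ℕ in atTop, (s : ℝ) ^ 8 / 2 ^ s < 1 / (4 * 4 ^ Q) :=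
    h.eventually_lt_const (by positivity)
  filter_upwards [h2] with s hs
  rw [div_lt_div_iff₀ (by positivity) (by positivity)] at hs
  have : (4 * 4 ^ Q * (s : ℝ) ^ 8 : ℝ) ≤ 2 ^ s := by linarith
  exact_mod_cast this

lemma ev_log (M : ℝ) : ∀ᶠ s : ℕ in atTop, M * (Real.log s) ^ 4 ≤ s := by
  have h : (fun x : ℝ => Real.log x ^ 4) =o[atTop] (fun x : ℝ => x) := Real.isLittleO_pow_log_id_atTop
  have h2 := h.comp_tendsto (tendsto_natCast_atTop_atTop (R := ℝ))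
  have h3 := h2.bound (show (0 : ℝ) < 1 / (|M| + 1) by positivity)
  filter_upwards [h3] with s hs
  simp only [Function.comp_apply] at hs
  rw [Real.norm_eq_abs, Real.norm_eq_abs, abs_of_nonneg (by positivity : (0 : ℝ) ≤ Real.log s ^ 4),
    abs_of_nonneg (show (0 : ℝ) ≤ (s : ℝ) from Nat.cast_nonneg s), one_div, inv_mul_eq_div, le_div_iff₀ (by positivity)] at hs
  have h4 : M * Real.log s ^ 4 ≤ |M| * Real.log s ^ 4 :=
    mul_le_mul_of_nonneg_right (le_abs_self M) (by positivity)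
  have h5 : (0 : ℝ) ≤ Real.log s ^ 4 := by positivity
  linarith

lemma ev_log2 (M : ℝ) : ∀ᶠ n : ℕ in atTop, M * (Real.log n) ^ 4 ≤ (n : ℝ) ^ (2 / 3 : ℝ) := by
  have h : (fun x : ℝ => Real.log x ^ (4 : ℝ)) =o[atTop] (fun x : ℝ => x ^ (2 / 3 : ℝ)) :=
    isLittleO_log_rpow_rpow_atTop 4 (by norm_num)
  have h2 := h.comp_tendsto (tendsto_natCast_atTop_atTop (R := ℝ))
  have h3 := h2.bound (show (0 : ℝ) < 1 / (|M| + 1) by positivity)
  filter_upwards [h3] with s hs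
  simp only [Function.comp_apply] at hs
  have e : (Real.log s) ^ (4 : ℝ) = (Real.log s) ^ 4 := by
    rw [← Real.rpow_natCast]; norm_num
  rw [e, Real.norm_eq_abs, Real.norm_eq_abs,
    abs_of_nonneg (by positivity : (0 : ℝ) ≤ Real.log s ^ 4),
    abs_of_nonneg (by positivity : (0 : ℝ) ≤ (s : ℝ) ^ (2 / 3 : ℝ)), one_div, inv_mul_eq_div,
    le_div_iff₀ (by positivity)] at hs
  have h4 : M * Real.log s ^ 4 ≤ |M| * Real.log s ^ 4 :=
    mul_le_mul_of_nonneg_right (le_abs_self M) (by positivity)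
  have h5 : (0 : ℝ) ≤ Real.log s ^ 4 := by positivity
  linarith

lemma one_le_log {s : ℕ} (hs : 3 ≤ s) : 1 ≤ Real.log s := by
  have h1 : (3 : ℝ) ≤ s := by exact_mod_cast hs
  rw [Real.le_log_iff_exp_le (by linarith)]
  have := Real.exp_one_lt_d9
  linarith

lemma exLs2 (z : ℂ) (hz : ‖z‖ = 1) (C' : ℝ)
    (hC' : ∀ q : ℕ, 0 < q → Real.exp (-(C' * q.totient)) ≤ ‖z ^ q - 1‖) (hC0 : 0 ≤ C') :
    ∃ B : ℝ, 1 ≤ B ∧ ∃ s₀ : ℕ, ∀ s : ℕ, s₀ ≤ s → ∃ (L : ℤ[X]) (H : ℕ),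
      (1 / 2 : ℝ) ^ s / 2 ≤ ‖aeval z L‖ ∧ ‖aeval z L‖ < (1 / 2 : ℝ) ^ s ∧ L.natDegree < H ∧
      (H : ℝ) ≤ B * (s * Real.log s ^ 4) ∧
      ∑ h ∈ range H, |(L.coeff h : ℝ)| ≤ 1 + Real.sqrt (B * (s * Real.log s ^ 4) ^ 3) := by
  obtain ⟨c, hc0, hc⟩ := exLs
  set Q : ℕ := ⌈2 * C' + 1⌉₊ with hQ
  set B₁ : ℝ := 25 / c + 7 with hB₁
  have hB₁7 : 7 ≤ B₁ := by
    have : 0 < 25 / c := by positivity
    linarith
  set B : ℝ := max (20 * B₁) (280 * ((2 : ℝ) ^ (16 * Q)) ^ 2 * (2 * B₁) ^ 3) with hB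
  have hB1 : 1 ≤ B := le_trans (by linarith) (le_max_left _ _)
  have hev : ∀ᶠ s : ℕ in atTop, 16 * Q ≤ s ∧ 14 ≤ s ∧ 4 * 4 ^ Q * s ^ 8 ≤ 2 ^ s ∧
      (14 * B₁) * (Real.log s) ^ 4 ≤ s :=
    (eventually_ge_atTop _).and ((eventually_ge_atTop _).and ((ev_pow Q).and (ev_log (14 * B₁))))
  obtain ⟨s₀, hs₀⟩ := eventually_atTop.1 hev
  refine ⟨B, hB1, s₀, ?_⟩
  intro s hs
  obtain ⟨h1, h2, h3, h4⟩ := hs₀ s hs
  set l := Real.log s with hl
  have hl1 : 1 ≤ l := one_le_log (by omega)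
  have hl4 : 1 ≤ l ^ 4 := one_le_pow₀ hl1
  have hll4 : l ≤ l ^ 4 := le_self_pow₀ hl1 (by norm_num)
  have hs14 : (14 : ℝ) ≤ s := by exact_mod_cast h2
  set Λ : ℕ := ⌈B₁ * l ^ 4⌉₊ with hΛ
  have hΛ1 : B₁ * l ^ 4 ≤ Λ := Nat.le_ceil _
  have hΛ2 : (Λ : ℝ) < B₁ * l ^ 4 + 1 := Nat.ceil_lt_add_one (by positivity)
  have hBl : 7 ≤ B₁ * l ^ 4 := by nlinarith
  have hΛ7 : 7 * Λ ≤ s ^ 2 := by
    have h5 : (7 : ℝ) * Λ ≤ (s : ℝ) ^ 2 := by nlinarith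
    exact_mod_cast h5
  have hΛpos : 1 ≤ Λ := by
    have : (1 : ℝ) ≤ Λ := by linarith
    exact_mod_cast this
  have hlog1 : Real.log ((7 * s * Λ : ℕ) : ℝ) ≤ 3 * l := by
    have h5 : 7 * s * Λ ≤ s ^ 3 := by
      calc 7 * s * Λ = s * (7 * Λ) := by ring
        _ ≤ s * s ^ 2 := Nat.mul_le_mul_left _ hΛ7
        _ = s ^ 3 := by ring
    have h6 : ((7 * s * Λ : ℕ) : ℝ) ≤ (s : ℝ) ^ 3 := by exact_mod_cast h5
    have h7 : 0 < 7 * s * Λ := by positivity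
    have h8 : (0 : ℝ) < ((7 * s * Λ : ℕ) : ℝ) := by exact_mod_cast h7
    calc Real.log ((7 * s * Λ : ℕ) : ℝ) ≤ Real.log ((s : ℝ) ^ 3) := Real.log_le_log h8 h6
      _ = 3 * l := by rw [Real.log_pow]; push_cast; ring
  have hlog2 : Real.log (2 * s) ≤ 2 * l := by
    calc Real.log (2 * s) ≤ Real.log ((s : ℝ) ^ 2) := Real.log_le_log (by linarith) (by nlinarith)
      _ = 2 * l := by rw [Real.log_pow]; push_cast; ring
  have hlog2' : 0 ≤ Real.log (2 * s) := Real.log_nonneg (by linarith)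
  have hi : Real.log ((7 * s * Λ : ℕ) : ℝ) * (Real.log (2 * s)) ^ 3 < ((Λ : ℝ) - 1) * c := by
    calc Real.log ((7 * s * Λ : ℕ) : ℝ) * (Real.log (2 * s)) ^ 3 ≤ (3 * l) * (2 * l) ^ 3 :=
          mul_le_mul hlog1 (pow_le_pow_left₀ hlog2' hlog2 3) (by positivity) (by positivity)
      _ = 24 * l ^ 4 := by ring
      _ < 25 * l ^ 4 := by linarith
      _ ≤ 25 * l ^ 4 + 7 * c * l ^ 4 - c := by nlinarith
      _ = (B₁ * l ^ 4 - 1) * c := by rw [hB₁]; field_simp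
      _ ≤ ((Λ : ℝ) - 1) * c := mul_le_mul_of_nonneg_right (by linarith) hc0.le
  have hii : Nat.log 2 (4 * s ^ 2) + 1 ≤ Λ := by
    have h5 : 2 ^ Nat.log 2 (4 * s ^ 2) ≤ 4 * s ^ 2 := Nat.pow_log_le_self 2 (by positivity)
    have h6 : (2 : ℝ) ^ Nat.log 2 (4 * s ^ 2) ≤ 4 * (s : ℝ) ^ 2 := by exact_mod_cast h5
    have h7 : (Nat.log 2 (4 * s ^ 2) : ℝ) * Real.log 2 ≤ 4 * l := by
      calc (Nat.log 2 (4 * s ^ 2) : ℝ) * Real.log 2 = Real.log ((2 : ℝ) ^ Nat.log 2 (4 * s ^ 2)) := by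
            rw [Real.log_pow]
        _ ≤ Real.log (4 * (s : ℝ) ^ 2) := Real.log_le_log (by positivity) h6
        _ ≤ Real.log ((s : ℝ) ^ 4) := by
            apply Real.log_le_log (by positivity)
            have h9 : (4 : ℝ) ≤ (s : ℝ) ^ 2 := by nlinarith
            calc 4 * (s : ℝ) ^ 2 ≤ (s : ℝ) ^ 2 * (s : ℝ) ^ 2 :=
                  mul_le_mul_of_nonneg_right h9 (by positivity)
              _ = (s : ℝ) ^ 4 := by ring
        _ = 4 * l := by rw [Real.log_pow]; push_cast; ring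
    have h8 := Real.log_two_gt_d9
    have h9 : (0 : ℝ) ≤ (Nat.log 2 (4 * s ^ 2) : ℝ) := Nat.cast_nonneg _
    have h10 : (Nat.log 2 (4 * s ^ 2) : ℝ) ≤ 6 * l := by nlinarith
    have h11 : ((Nat.log 2 (4 * s ^ 2) + 1 : ℕ) : ℝ) ≤ Λ := by
      push_cast
      nlinarith
    exact_mod_cast h11
  have hQ' : 2 * C' + 1 ≤ Q := Nat.le_ceil _
  obtain ⟨L, H, hL1, hL2, hL3, hL4, hL5⟩ := hc z hz C' hC' hC0 Q s Λ hQ' h1 h3 hΛ7 hi hii
  have hsΛ : ((s * Λ : ℕ) : ℝ) ≤ 2 * B₁ * (s * l ^ 4) := by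
    push_cast
    have h5 : (Λ : ℝ) ≤ 2 * B₁ * l ^ 4 := by linarith
    calc (s : ℝ) * Λ ≤ s * (2 * B₁ * l ^ 4) := mul_le_mul_of_nonneg_left h5 (by linarith)
      _ = _ := by ring
  have hsl : (0 : ℝ) ≤ s * l ^ 4 := by positivity
  refine ⟨L, H, hL1, hL2, hL3, ?_, hL5.trans ?_⟩
  · have h5 : (H : ℝ) ≤ 10 * ((s * Λ : ℕ) : ℝ) := by exact_mod_cast hL4
    calc (H : ℝ) ≤ 10 * ((s * Λ : ℕ) : ℝ) := h5
      _ ≤ 10 * (2 * B₁ * (s * l ^ 4)) := by linarith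
      _ = (20 * B₁) * (s * l ^ 4) := by ring
      _ ≤ B * (s * l ^ 4) := mul_le_mul_of_nonneg_right (le_max_left _ _) hsl
  · apply add_le_add le_rfl
    apply Real.sqrt_le_sqrt
    have h5 : ((s * Λ : ℕ) : ℝ) ^ 3 ≤ (2 * B₁ * (s * l ^ 4)) ^ 3 :=
      pow_le_pow_left₀ (Nat.cast_nonneg _) hsΛ 3
    calc 280 * ((2 : ℝ) ^ (16 * Q)) ^ 2 * ((s * Λ : ℕ) : ℝ) ^ 3
        ≤ 280 * ((2 : ℝ) ^ (16 * Q)) ^ 2 * (2 * B₁ * (s * l ^ 4)) ^ 3 :=
          mul_le_mul_of_nonneg_left h5 (by positivity)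
      _ = (280 * ((2 : ℝ) ^ (16 * Q)) ^ 2 * (2 * B₁) ^ 3) * (s * l ^ 4) ^ 3 := by ring
      _ ≤ B * (s * l ^ 4) ^ 3 := mul_le_mul_of_nonneg_right (le_max_right _ _) (by positivity)

theorem main (m θ : ℝ) (hm : 0 < m) (h : DC m θ) :
    ∃ c : ℝ, 0 < c ∧ ∃ n₀ : ℕ, ∀ n : ℕ, n₀ ≤ n →
      DPV n (Real.exp (c * (n : ℝ) ^ (2 / 3 : ℝ) / (Real.log n) ^ 4)) θ := by
  have hsin := sin_ne_zero_of_dc m θ h
  obtain ⟨C', hC0, hC'⟩ := exC m θ hm h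
  have hzn : ‖Complex.exp (Complex.I * θ)‖ = 1 := by
    rw [mul_comm, Complex.norm_exp_ofReal_mul_I]
  obtain ⟨B, hB1, s₀, hs₀⟩ := exLs2 _ hzn C' hC' hC0
  set s₁ : ℕ := max s₀ 7 with hs₁
  set A₁ : ℝ := 2 + 2 ^ (s₁ + 2) * (1 + 2 / |Real.sin θ|) with hA₁
  have hA2 : 2 ≤ A₁ := by
    have : (0 : ℝ) ≤ 2 ^ (s₁ + 2) * (1 + 2 / |Real.sin θ|) := by positivity
    linarith
  have hA0 : 0 < A₁ := by linarith
  have hB0 : 0 < B := by linarith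
  set η : ℝ := 1 / (4 * A₁ ^ 2 * B) with hη
  have hη0 : 0 < η := by positivity
  have hη1 : 4 * A₁ ^ 2 * B * η = 1 := by rw [hη]; field_simp
  have hBη : B * η ≤ 1 := by
    have h1 : 1 ≤ 4 * A₁ ^ 2 := by nlinarith
    have h2 : B * η ≤ (4 * A₁ ^ 2) * (B * η) := le_mul_of_one_le_left (by positivity) h1
    linarith
  have hηle : η ≤ 1 := by
    have : η ≤ B * η := le_mul_of_one_le_left hη0.le hB1
    linarith
  refine ⟨η / 3, by positivity, ?_⟩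
  have hev : ∀ᶠ n : ℕ in atTop, 64 ≤ n ∧ ⌈4 * (1 + A₁)⌉₊ ≤ n ∧
      ((s₁ + 2) / (η / 3)) * (Real.log n) ^ 4 ≤ (n : ℝ) ^ (2 / 3 : ℝ) :=
    (eventually_ge_atTop _).and ((eventually_ge_atTop _).and (ev_log2 _))
  obtain ⟨n₀, hn₀⟩ := eventually_atTop.1 hev
  refine ⟨n₀, ?_⟩
  intro n hn
  obtain ⟨h64, hnA, hnlog⟩ := hn₀ n hn
  have h64R : (64 : ℝ) ≤ n := by exact_mod_cast h64
  have hnA' : 4 * (1 + A₁) ≤ n := (Nat.le_ceil _).trans (by exact_mod_cast hnA)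
  set t : ℝ := (n : ℝ) ^ (2 / 3 : ℝ) with ht
  have ht0 : 0 < t := by positivity
  have ht3 : t ^ 3 = (n : ℝ) ^ 2 := by
    rw [ht, ← Real.rpow_natCast, ← Real.rpow_mul (by positivity), ← Real.rpow_natCast]
    norm_num
  set l := Real.log n with hl
  have hl1 : 1 ≤ l := one_le_log (by omega)
  have hl4 : 1 ≤ l ^ 4 := one_le_pow₀ hl1
  have hl40 : 0 < l ^ 4 := by positivity
  have htn : t ≤ n / 4 := by
    by_contra hcon
    push Not at hcon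
    have h1 : ((n : ℝ) / 4) ^ 3 < t ^ 3 := pow_lt_pow_left₀ hcon (by positivity) (by norm_num)
    rw [ht3] at h1
    nlinarith [sq_nonneg (n : ℝ)]
  set X : ℝ := η / 3 * t / l ^ 4 with hX
  have hX0 : 0 < X := by positivity
  have hXs : (s₁ : ℝ) + 2 ≤ X := by
    rw [hX, le_div_iff₀ hl40]
    have h1 : ((s₁ : ℝ) + 2) / (η / 3) * l ^ 4 ≤ t := hnlog
    rw [div_mul_eq_mul_div, div_le_iff₀ (by positivity)] at h1
    linarith
  have h3X : 3 * X * l ^ 4 = η * t := by rw [hX]; field_simp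
  have h3Xt : 3 * X ≤ t := by
    have h1 : 3 * X ≤ 3 * X * l ^ 4 := le_mul_of_one_le_right (by positivity) hl4
    have h2 : η * t ≤ t := mul_le_of_le_one_left ht0.le hηle
    linarith
  set Smax : ℕ := ⌊3 * X⌋₊ with hSmax
  have hSm1 : (Smax : ℝ) ≤ 3 * X := Nat.floor_le (by positivity)
  have hSm2 : 3 * X < Smax + 1 := Nat.lt_floor_add_one _
  intro p hp1 hp2 hp3 hp4
  rw [Real.log_exp] at hp1
  refine cover θ hsin n s₁ Smax (le_max_right _ _) A₁ le_rfl ?_ p hp2 ?_ hp3 hp4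
  · intro s hs hsS
    obtain ⟨L, H, hL1, hL2, hL3, hL4, hL5⟩ := hs₀ s ((le_max_left _ _).trans hs)
    refine ⟨L, H, hL1, hL2, hL3, ?_⟩
    have hs7 : 7 ≤ s := (le_max_right _ _).trans hs
    have hsR : (s : ℝ) ≤ 3 * X := (by exact_mod_cast hsS : (s : ℝ) ≤ Smax).trans hSm1
    have hsn : (s : ℝ) ≤ n := by linarith
    have hs0 : (0 : ℝ) < s := by
      have : 0 < s := by omega
      exact_mod_cast this
    have hls : Real.log s ≤ l := Real.log_le_log hs0 hsn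
    have hls0 : 0 ≤ Real.log s := Real.log_natCast_nonneg s
    have hsl : (s : ℝ) * Real.log s ^ 4 ≤ η * t := by
      rw [← h3X]
      exact mul_le_mul hsR (pow_le_pow_left₀ hls0 hls 4) (by positivity) (by positivity)
    have hsl0 : 0 ≤ (s : ℝ) * Real.log s ^ 4 := by positivity
    have e1 : (H : ℝ) ≤ t := by
      calc (H : ℝ) ≤ B * (s * Real.log s ^ 4) := hL4
        _ ≤ B * (η * t) := mul_le_mul_of_nonneg_left hsl hB0.le
        _ = (B * η) * t := by ring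
        _ ≤ t := mul_le_of_le_one_left ht0.le hBη
    have e2 : Real.sqrt (B * (s * Real.log s ^ 4) ^ 3) ≤ n / (2 * A₁) := by
      apply Real.sqrt_le_iff.2
      refine ⟨by positivity, ?_⟩
      calc B * (s * Real.log s ^ 4) ^ 3 ≤ B * (η * t) ^ 3 :=
            mul_le_mul_of_nonneg_left (pow_le_pow_left₀ hsl0 hsl 3) hB0.le
        _ = (B * η) * (η ^ 2) * (n : ℝ) ^ 2 := by rw [mul_pow, ht3]; ring
        _ ≤ (B * η) * 1 * (n : ℝ) ^ 2 := by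
            apply mul_le_mul_of_nonneg_right _ (by positivity)
            apply mul_le_mul_of_nonneg_left _ (by positivity)
            exact pow_le_one₀ hη0.le hηle
        _ = (n / (2 * A₁)) ^ 2 := by
            rw [hη]; field_simp; ring
    have e3 : A₁ * ∑ h ∈ range H, |(L.coeff h : ℝ)| ≤ A₁ + n / 2 := by
      calc A₁ * ∑ h ∈ range H, |(L.coeff h : ℝ)| ≤ A₁ * (1 + n / (2 * A₁)) :=
            mul_le_mul_of_nonneg_left (hL5.trans (by linarith)) hA0.le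
        _ = A₁ + n / 2 := by field_simp
    linarith
  · have hl2 := Real.log_two_gt_d9
    have hl2' : 0 < Real.log 2 := by linarith
    have h1 : -p.re / Real.log 2 ≤ 3 / 2 * X := by
      rw [div_le_iff₀ hl2']
      have : -p.re ≤ X := by linarith
      nlinarith
    linarith

end Pool.Agent.Helper181_DPV
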