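import Mathlib

/-!
Rounding in inner product spaces, and a discrete intermediate value argument.
-/

set_option autoImplicit false

open Finset

namespace Pool.Agent.Helper181_DPV

/-- greedy rounding -/
lemma round {ι E : Type*} [Fintype ι] [NormedAddCommGroup E] [InnerProductSpace ℝ E]
    (u : ι → E) (x : ι → ℝ) :
    ∃ k : ι → ℤ, (∀ i, |(k i : ℝ) - x i| ≤ 1) ∧
      ‖∑ i, ((k i : ℝ) - x i) • u i‖ ^ 2 ≤ ∑ i, ‖u i‖ ^ 2 := by
  classical
  have key : ∀ s : Finset ι, ∃ k : ι → ℤ, (∀ i, |(k i : ℝ) - x i| ≤ 1) ∧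
      ‖∑ i ∈ s, ((k i : ℝ) - x i) • u i‖ ^ 2 ≤ ∑ i ∈ s, ‖u i‖ ^ 2 := by
    intro s
    induction s using Finset.induction_on with
    | empty =>
      refine ⟨fun i => ⌊x i⌋, fun i => ?_, by simp⟩
      rw [abs_le]
      constructor <;> linarith [Int.floor_le (x i), Int.lt_floor_add_one (x i)]
    | insert a s ha ih =>
      obtain ⟨k, hk1, hk2⟩ := ih
      have hcore : ∀ m : ℤ, |(m : ℝ) - x a| ≤ 1 →
          ((m : ℝ) - x a) * inner ℝ (∑ i ∈ s, ((k i : ℝ) - x i) • u i) (u a) ≤ 0 →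
          ∃ k : ι → ℤ, (∀ i, |(k i : ℝ) - x i| ≤ 1) ∧
            ‖∑ i ∈ insert a s, ((k i : ℝ) - x i) • u i‖ ^ 2 ≤ ∑ i ∈ insert a s, ‖u i‖ ^ 2 := by
        intro m hm hin
        refine ⟨Function.update k a m, ?_, ?_⟩
        · intro i
          by_cases hi : i = a
          · subst hi; simpa using hm
          · rw [Function.update_of_ne hi]; exact hk1 i
        · rw [sum_insert ha, sum_insert ha, Function.update_self]
          have h1 : ∑ i ∈ s, ((Function.update k a m i : ℝ) - x i) • u i =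
              ∑ i ∈ s, ((k i : ℝ) - x i) • u i := by
            refine sum_congr rfl fun i hi => ?_
            rw [Function.update_of_ne (by rintro rfl; exact ha hi)]
          rw [h1, add_comm (((m : ℝ) - x a) • u a), norm_add_sq_real, inner_smul_right, norm_smul,
            mul_pow]
          have h2 : ‖(m : ℝ) - x a‖ ^ 2 ≤ 1 := by
            rw [Real.norm_eq_abs]
            exact pow_le_one₀ (abs_nonneg _) hm
          have h3 : ‖(m : ℝ) - x a‖ ^ 2 * ‖u a‖ ^ 2 ≤ 1 * ‖u a‖ ^ 2 :=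
            mul_le_mul_of_nonneg_right h2 (by positivity)
          linarith
      rcases le_total 0 (inner ℝ (∑ i ∈ s, ((k i : ℝ) - x i) • u i) (u a)) with h | h
      · refine hcore ⌊x a⌋ ?_ ?_
        · rw [abs_le]
          constructor <;> linarith [Int.floor_le (x a), Int.lt_floor_add_one (x a)]
        · exact mul_nonpos_of_nonpos_of_nonneg (by linarith [Int.floor_le (x a)]) h
      · refine hcore (⌊x a⌋ + 1) ?_ ?_
        · push_cast
          rw [abs_le]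
          constructor <;> linarith [Int.floor_le (x a), Int.lt_floor_add_one (x a)]
        · refine mul_nonpos_of_nonneg_of_nonpos ?_ h
          push_cast
          linarith [Int.lt_floor_add_one (x a)]
  exact key univ

lemma gap {ι : Type*} [Fintype ι] (ζ : ι → ℂ) (y : ι → ℝ) (δ r : ℝ) (hδ : ∀ i, ‖ζ i‖ ≤ δ)
    (hr : 0 < r) (hc : 3 * (Fintype.card ι : ℝ) * δ ≤ r / 2) (ρ : ℝ → ι → ℤ)
    (hρ : ∀ t i, |(ρ t i : ℝ) - t * y i| ≤ 1) (hw : 2 * r ≤ ‖∑ i, (y i : ℂ) * ζ i‖) :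
    ∃ t ∈ Set.Icc (0 : ℝ) 1, r / 2 ≤ ‖∑ i, (ρ t i : ℂ) * ζ i‖ ∧
      ‖∑ i, (ρ t i : ℂ) * ζ i‖ < r := by
  classical
  obtain ⟨N, hN⟩ : ∃ N : ℕ, ∀ i, |y i| ≤ N := by
    refine ⟨⌈∑ i, |y i|⌉₊, fun i => ?_⟩
    exact (single_le_sum (f := fun i => |y i|) (fun i _ => abs_nonneg _) (mem_univ i)).trans
      (Nat.le_ceil _)
  have hN' : ∀ i, |y i| ≤ ((N + 1 : ℕ) : ℝ) := fun i => (hN i).trans (by push_cast; linarith)
  set M : ℕ := N + 1 with hM
  have hM0 : (0 : ℝ) < M := by rw [hM]; positivity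
  -- general estimate
  have hsum : ∀ (a : ι → ℝ) (A : ℝ), (∀ i, |a i| ≤ A) → 0 ≤ A →
      ‖∑ i, (a i : ℂ) * ζ i‖ ≤ A * ((Fintype.card ι : ℝ) * δ) := by
    intro a A ha hA
    calc ‖∑ i, (a i : ℂ) * ζ i‖ ≤ ∑ i : ι, ‖(a i : ℂ) * ζ i‖ := norm_sum_le _ _
      _ ≤ ∑ _i : ι, A * δ := by
          refine sum_le_sum fun i _ => ?_
          rw [norm_mul, Complex.norm_real, Real.norm_eq_abs]
          exact mul_le_mul (ha i) (hδ i) (norm_nonneg _) hA
      _ = A * ((Fintype.card ι : ℝ) * δ) := by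
          rw [sum_const, card_univ, nsmul_eq_mul]; ring
  set c : ℝ := (Fintype.card ι : ℝ) * δ with hcdef
  have hc' : c ≤ r / 6 := by nlinarith
  set f : ℕ → ℝ := fun n => ‖∑ i, (ρ ((n : ℝ) / M) i : ℂ) * ζ i‖ with hf
  have hstep : ∀ n, f (n + 1) ≤ f n + r / 2 := by
    intro n
    have h1 : ∑ i, (ρ (((n + 1 : ℕ) : ℝ) / M) i : ℂ) * ζ i =
        ∑ i, (ρ ((n : ℝ) / M) i : ℂ) * ζ i +
        ∑ i, (((ρ (((n + 1 : ℕ) : ℝ) / M) i : ℝ) - (ρ ((n : ℝ) / M) i : ℝ) : ℝ) : ℂ) * ζ i := by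
      rw [← sum_add_distrib]
      refine sum_congr rfl fun i _ => ?_
      push_cast
      ring
    have h2 := hsum (fun i => (ρ (((n + 1 : ℕ) : ℝ) / M) i : ℝ) - (ρ ((n : ℝ) / M) i : ℝ)) 3
      (fun i => by
        have h3 := hρ (((n + 1 : ℕ) : ℝ) / M) i
        have h4 := hρ ((n : ℝ) / M) i
        have h5 : |((n + 1 : ℕ) : ℝ) / M * y i - (n : ℝ) / M * y i| ≤ 1 := by
          have : ((n + 1 : ℕ) : ℝ) / M * y i - (n : ℝ) / M * y i = y i / M := by
            push_cast; field_simp; ring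
          rw [this, abs_div, abs_of_pos hM0, div_le_one hM0]
          exact hN' i
        rw [abs_le] at h3 h4 h5 ⊢
        constructor <;> linarith [h3.1, h3.2, h4.1, h4.2, h5.1, h5.2]) (by norm_num)
    show ‖∑ i, (ρ (((n + 1 : ℕ) : ℝ) / M) i : ℂ) * ζ i‖ ≤ ‖∑ i, (ρ ((n : ℝ) / M) i : ℂ) * ζ i‖ + r / 2
    rw [h1]
    refine (norm_add_le _ _).trans ?_
    have : 3 * c ≤ r / 2 := by rw [hcdef]; linarith
    linarith
  have h0 : f 0 < r / 2 := by
    have h2 := hsum (fun i => (ρ (((0 : ℕ) : ℝ) / M) i : ℝ)) 1 (fun i => by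
      have h3 := hρ (((0 : ℕ) : ℝ) / M) i
      simpa using h3) (by norm_num)
    have h3 : f 0 ≤ 1 * c := by
      rw [hf]
      simpa using h2
    linarith
  have h1 : r ≤ f M := by
    have h2 := hsum (fun i => (ρ (((M : ℕ) : ℝ) / M) i : ℝ) - y i) 1 (fun i => by
      have h3 := hρ (((M : ℕ) : ℝ) / M) i
      rw [div_self hM0.ne'] at h3 ⊢
      simpa using h3) (by norm_num)
    have h3 : ∑ i, (y i : ℂ) * ζ i = ∑ i, (ρ (((M : ℕ) : ℝ) / M) i : ℂ) * ζ i -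
        ∑ i, (((ρ (((M : ℕ) : ℝ) / M) i : ℝ) - y i : ℝ) : ℂ) * ζ i := by
      rw [← sum_sub_distrib]
      refine sum_congr rfl fun i _ => ?_
      push_cast
      ring
    rw [h3] at hw
    have h4 := norm_sub_le (∑ i, (ρ (((M : ℕ) : ℝ) / M) i : ℂ) * ζ i)
      (∑ i, (((ρ (((M : ℕ) : ℝ) / M) i : ℝ) - y i : ℝ) : ℂ) * ζ i)
    show r ≤ ‖∑ i, (ρ ((M : ℝ) / M) i : ℂ) * ζ i‖
    linarith
  have hex : ∃ n, r / 2 ≤ f n := ⟨M, by linarith⟩
  have hfind := Nat.find_spec hex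
  have hle : Nat.find hex ≤ M := Nat.find_min' hex (by linarith)
  have hne : Nat.find hex ≠ 0 := by
    intro h
    rw [h] at hfind
    linarith
  obtain ⟨n, hn⟩ := Nat.exists_eq_succ_of_ne_zero hne
  have hlt : f n < r / 2 := by
    have := Nat.find_min hex (m := n) (by omega)
    exact not_le.1 this
  refine ⟨((n + 1 : ℕ) : ℝ) / M, ⟨by positivity, ?_⟩, ?_, ?_⟩
  · rw [div_le_one hM0]
    exact_mod_cast (by omega : n + 1 ≤ M)
  · rw [hn] at hfind
    exact hfind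
  · have := hstep n
    show f (n + 1) < r
    linarith

end Pool.Agent.Helper181_DPV
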