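import Pool.Agent.Helper181_DPV.JL
import Pool.Agent.Helper181_DPV.DC
import Pool.Agent.Helper181_DPV.ExL
import Pool.Agent.Helper181_DPV.Gcd

/-!
Integer polynomials of small weight with value of size `2^(-s)`.
-/

set_option autoImplicit false

open Finset Polynomial

namespace Pool.Agent.Helper181_DPV

lemma exp_mul_le (C' : ℝ) (hC0 : 0 ≤ C') (Q g : ℕ) (hQ : 2 * C' + 1 ≤ Q) :
    Real.exp (C' * g) * 2 ^ g ≤ 2 ^ (Q * g) := by
  have h1 : Real.exp (C' * g) ≤ (2 : ℝ) ^ (2 * C' * g) := by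
    rw [Real.rpow_def_of_pos (by norm_num)]
    apply Real.exp_le_exp.2
    have h2 := Real.log_two_gt_d9
    have h3 : 0 ≤ C' * g := by positivity
    nlinarith
  calc Real.exp (C' * g) * 2 ^ g ≤ (2 : ℝ) ^ (2 * C' * g) * 2 ^ g :=
        mul_le_mul_of_nonneg_right h1 (by positivity)
    _ = (2 : ℝ) ^ ((2 * C' + 1) * g) := by
        rw [← Real.rpow_natCast 2 g, ← Real.rpow_add (by norm_num)]
        congr 1; ring
    _ ≤ (2 : ℝ) ^ ((Q : ℝ) * g) := by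
        apply Real.rpow_le_rpow_of_exponent_le (by norm_num)
        exact mul_le_mul_of_nonneg_right hQ (by positivity)
    _ = 2 ^ (Q * g) := by
        rw [← Nat.cast_mul, Real.rpow_natCast]

lemma final_bound (H D g V b x : ℝ) (f1 : H ≤ 10 * x) (f2 : D = 7 * x) (f3 : g ≤ x)
    (f4 : V ≤ 3 * x) (f6 : 1 ≤ b ^ 2) (hg : 0 ≤ g) (hV : 0 ≤ V) (hx : 0 ≤ x) :
    H * (D * (g * b ^ 2) + V * D) ≤ 280 * b ^ 2 * x ^ 3 := by
  rw [f2]
  have hb0 : 0 ≤ b ^ 2 := by positivity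
  have h1 : g * b ^ 2 ≤ x * b ^ 2 := mul_le_mul_of_nonneg_right f3 hb0
  have h2 : 7 * x * (g * b ^ 2) ≤ 7 * x * (x * b ^ 2) := mul_le_mul_of_nonneg_left h1 (by positivity)
  have h3 : V * (7 * x) ≤ 3 * x * (7 * x) := mul_le_mul_of_nonneg_right f4 (by positivity)
  have h4 : 3 * x * (7 * x) ≤ 3 * x * (7 * x) * b ^ 2 := le_mul_of_one_le_right (by positivity) f6
  have h5 : 7 * x * (g * b ^ 2) + V * (7 * x) ≤ 28 * x ^ 2 * b ^ 2 := by
    calc 7 * x * (g * b ^ 2) + V * (7 * x) ≤ 7 * x * (x * b ^ 2) + 3 * x * (7 * x) * b ^ 2 := by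
          linarith
      _ = 28 * x ^ 2 * b ^ 2 := by ring
  calc H * (7 * x * (g * b ^ 2) + V * (7 * x)) ≤ (10 * x) * (28 * x ^ 2 * b ^ 2) :=
        mul_le_mul f1 h5 (by positivity) (by positivity)
    _ = 280 * b ^ 2 * x ^ 3 := by ring

set_option maxHeartbeats 4000000 in
lemma exLs : ∃ c : ℝ, 0 < c ∧ ∀ (z : ℂ) (_ : ‖z‖ = 1) (C' : ℝ)
    (_ : ∀ q : ℕ, 0 < q → Real.exp (-(C' * q.totient)) ≤ ‖z ^ q - 1‖) (_ : 0 ≤ C')
    (Q s Λ : ℕ) (_ : 2 * C' + 1 ≤ Q) (_ : 16 * Q ≤ s) (_ : 4 * 4 ^ Q * s ^ 8 ≤ 2 ^ s)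
    (_ : 7 * Λ ≤ s ^ 2)
    (_ : Real.log ((7 * s * Λ : ℕ) : ℝ) * (Real.log (2 * s)) ^ 3 < ((Λ : ℝ) - 1) * c)
    (_ : Nat.log 2 (4 * s ^ 2) + 1 ≤ Λ),
    ∃ (L : ℤ[X]) (H : ℕ), (1 / 2 : ℝ) ^ s / 2 ≤ ‖aeval z L‖ ∧ ‖aeval z L‖ < (1 / 2 : ℝ) ^ s ∧
      L.natDegree < H ∧ H ≤ 10 * (s * Λ) ∧
      ∑ h ∈ range H, |(L.coeff h : ℝ)| ≤
        1 + Real.sqrt (280 * ((2 : ℝ) ^ (16 * Q)) ^ 2 * ((s * Λ : ℕ) : ℝ) ^ 3) := by
  classical
  obtain ⟨c, hc0, hc⟩ := exJ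
  refine ⟨c, hc0, ?_⟩
  intro z hz C' hC' hC0 Q s Λ hQ hs h1 h2 h3 h4
  have hQ1 : 1 ≤ Q := by
    have : (1 : ℝ) ≤ Q := by linarith
    exact_mod_cast this
  have hs16 : 16 ≤ s := by omega
  have hΛ1 : 1 ≤ Λ := by omega
  set g : ℕ := s / (2 * Q) + 1 with hg
  set b : ℕ := 2 ^ (16 * Q) with hb
  set K : ℕ := 2 ^ (2 * s) with hK
  set D : ℕ := 7 * s * Λ with hD
  have hdm : 2 * Q * (s / (2 * Q)) + s % (2 * Q) = s := Nat.div_add_mod s (2 * Q)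
  have hmod : s % (2 * Q) < 2 * Q := Nat.mod_lt _ (by omega)
  have hQg1 : s + 1 ≤ 2 * (Q * g) := by
    have : 2 * (Q * g) = 2 * Q * (s / (2 * Q)) + 2 * Q := by rw [hg]; ring
    omega
  have hQg2 : 2 * (Q * g) ≤ s + 2 * Q := by
    have : 2 * (Q * g) = 2 * Q * (s / (2 * Q)) + 2 * Q := by rw [hg]; ring
    omega
  have hgs : g ≤ s := by
    have h5 : g ≤ Q * g := Nat.le_mul_of_pos_left g hQ1
    have : 2 * g ≤ s + 2 * Q := by omega
    omega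
  have hg1 : 1 ≤ g := by rw [hg]; exact Nat.le_add_left 1 _
  have hb1 : 1 ≤ b := Nat.one_le_two_pow
  have hK1 : 1 ≤ K := Nat.one_le_two_pow
  have hK0 : 0 < K := hK1
  have hQ4 : 4 ≤ 4 ^ Q := by
    calc 4 = 4 ^ 1 := by norm_num
      _ ≤ 4 ^ Q := Nat.pow_le_pow_right (by norm_num) hQ1
  have hs8 : 16 * s ^ 8 ≤ 2 ^ s := by
    refine le_trans ?_ h1
    apply Nat.mul_le_mul_right
    omega
  -- M₁
  have hM1 : (2 * (g * b * K) + 3) ^ 2 < b ^ g := by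
    have e1 : 2 * (g * b * K) + 3 ≤ 2 ^ (2 * s + 16 * Q + 3) * s := by
      have h5 : 1 ≤ g * b * K := Nat.mul_pos (Nat.mul_pos hg1 hb1) hK0
      have h6 : g * b * K ≤ s * b * K := Nat.mul_le_mul_right _ (Nat.mul_le_mul_right _ hgs)
      have h7 : 2 ^ (2 * s + 16 * Q + 3) * s = 8 * (s * b * K) := by
        rw [pow_add, pow_add, ← hK, ← hb]; ring
      rw [h7]; omega
    have e2 : b ^ g = 2 ^ (8 * (2 * (Q * g))) := by
      rw [hb, ← pow_mul]; congr 1; ring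
    rw [e2]
    calc (2 * (g * b * K) + 3) ^ 2 ≤ (2 ^ (2 * s + 16 * Q + 3) * s) ^ 2 :=
          Nat.pow_le_pow_left e1 2
      _ = 2 ^ (2 * (2 * s + 16 * Q + 3)) * s ^ 2 := by rw [mul_pow, ← pow_mul, Nat.mul_comm (2 * s + 16 * Q + 3) 2]
      _ ≤ 2 ^ (2 * (2 * s + 16 * Q + 3)) * 2 ^ s := by
          apply Nat.mul_le_mul_left
          calc s ^ 2 ≤ s ^ 8 := Nat.pow_le_pow_right (by omega) (by norm_num)
            _ ≤ 2 ^ s := by omega
      _ = 2 ^ (2 * (2 * s + 16 * Q + 3) + s) := by rw [pow_add]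
      _ < 2 ^ (8 * (2 * (Q * g))) := by
          apply Nat.pow_lt_pow_right (by norm_num)
          omega
  obtain ⟨M₁, hM10, hM1d, hM1c, hM1z⟩ := exM1 z hz g b K hK0 hM1
  -- the bad roots
  set A : Finset ℂ := ((M₁.map (algebraMap ℤ ℂ)).roots.toFinset).filter
    (fun α => IsIntegral ℤ α ∧ α ≠ 0 ∧ ∀ n : ℕ, 0 < n → α ^ n ≠ 1) with hA
  have hinjC : Function.Injective (algebraMap ℤ ℂ) := (algebraMap ℤ ℂ).injective_int
  have hM1C : M₁.map (algebraMap ℤ ℂ) ≠ 0 := by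
    rw [Ne, Polynomial.map_eq_zero_iff hinjC]; exact hM10
  have hAc : A.card ≤ g := by
    calc A.card ≤ ((M₁.map (algebraMap ℤ ℂ)).roots.toFinset).card := card_filter_le _ _
      _ ≤ Multiset.card (M₁.map (algebraMap ℤ ℂ)).roots := Multiset.toFinset_card_le _
      _ ≤ (M₁.map (algebraMap ℤ ℂ)).natDegree := card_roots' _
      _ ≤ M₁.natDegree := natDegree_map_le
      _ ≤ g := hM1d.le
  have hAmem : ∀ α : ℂ, α ∈ A ↔ aeval α M₁ = 0 ∧
      (IsIntegral ℤ α ∧ α ≠ 0 ∧ ∀ n : ℕ, 0 < n → α ^ n ≠ 1) := by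
    intro α
    rw [hA, mem_filter, Multiset.mem_toFinset, mem_roots hM1C, IsRoot.def, eval_map_algebraMap]
  have hAd : ∀ α ∈ A, (minpoly ℚ α).natDegree ≤ g := by
    intro α hα
    have h5 := ((hAmem α).1 hα).1
    have hinj : Function.Injective (algebraMap ℤ ℚ) := (algebraMap ℤ ℚ).injective_int
    have h6 : M₁.map (algebraMap ℤ ℚ) ≠ 0 := by
      rw [Ne, Polynomial.map_eq_zero_iff hinj]; exact hM10
    have h7 : aeval α (M₁.map (algebraMap ℤ ℚ)) = 0 := by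
      rw [aeval_map_algebraMap]; exact h5
    have h8 := minpoly.degree_le_of_ne_zero ℚ α h6 h7
    have h9 : (minpoly ℚ α).natDegree ≤ (M₁.map (algebraMap ℤ ℚ)).natDegree :=
      natDegree_le_natDegree h8
    exact h9.trans (natDegree_map_le.trans hM1d.le)
  have hJex : ∀ α : ℂ, ∃ J : Finset ℕ, α ∈ A → (J ⊆ range D ∧ D ≤ Λ * (J.card + g) ∧
      ∀ S ⊆ range D, ∀ S' ⊆ range D, S \ J = S' \ J →
        ∑ j ∈ S, α ^ j = ∑ j ∈ S', α ^ j → S = S') := by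
    intro α
    by_cases hα : α ∈ A
    · obtain ⟨-, h5, h6, h7⟩ := (hAmem α).1 hα
      obtain ⟨J, h8, h9, h10⟩ := hc α h5 h6 h7 g D Λ (hAd α hα) hΛ1 (by
        refine lt_of_le_of_lt ?_ h3
        apply mul_le_mul_of_nonneg_left _ (Real.log_natCast_nonneg D)
        have hg1R : (1 : ℝ) ≤ g := by exact_mod_cast hg1
        have hgsR : (g : ℝ) ≤ s := by exact_mod_cast hgs
        apply pow_le_pow_left₀ (Real.log_nonneg (by linarith))
        apply Real.log_le_log (by linarith)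
        linarith)
      exact ⟨J, fun _ => ⟨h8, h9, h10⟩⟩
    · exact ⟨∅, fun h => absurd h hα⟩
  choose J hJ using hJex
  have hm : 6 * s ≤ D := by
    rw [hD]
    calc 6 * s ≤ 7 * s := by omega
      _ ≤ 7 * s * Λ := Nat.le_mul_of_pos_right _ hΛ1
  -- M₂
  have hDs : D ≤ s ^ 3 := by
    calc D = s * (7 * Λ) := by rw [hD]; ring
      _ ≤ s * s ^ 2 := Nat.mul_le_mul_left _ h2
      _ = s ^ 3 := by ring
  obtain ⟨M₂, hM20, hM2d, hM2c, hM2z, hM2A⟩ := exM2 z hz D K (6 * s) hK0 hm A J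
    (fun α hα => (hJ α hα).1)
    (fun α hα => by
      have h5 := (hJ α hα).2.1
      have h6 : Λ * (7 * s) ≤ Λ * ((J α).card + g) := by
        calc Λ * (7 * s) = D := by rw [hD]; ring
          _ ≤ _ := h5
      have h7 := Nat.le_of_mul_le_mul_left h6 hΛ1
      omega)
    (fun α hα => (hJ α hα).2.2)
    (by
      have e1 : 2 * (D * K) + 3 ≤ 4 * (D * K) := by
        have : 2 ≤ D * K := by
          calc 2 ≤ D := by omega
            _ ≤ D * K := Nat.le_mul_of_pos_right _ hK0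
        omega
      have e2 : A.card * 2 ^ (D - 6 * s) + 1 ≤ 2 * (s * 2 ^ (D - 6 * s)) := by
        have h5 : A.card * 2 ^ (D - 6 * s) ≤ s * 2 ^ (D - 6 * s) :=
          Nat.mul_le_mul_right _ (hAc.trans hgs)
        have h6 : 1 ≤ s * 2 ^ (D - 6 * s) := Nat.mul_pos (by omega) (Nat.pow_pos (by norm_num))
        omega
      calc (2 * (D * K) + 3) ^ 2 * (A.card * 2 ^ (D - 6 * s) + 1)
          ≤ (4 * (D * K)) ^ 2 * (2 * (s * 2 ^ (D - 6 * s))) :=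
            Nat.mul_le_mul (Nat.pow_le_pow_left e1 2) e2
        _ = (32 * D ^ 2 * s) * (K ^ 2 * 2 ^ (D - 6 * s)) := by ring
        _ ≤ (32 * (s ^ 3) ^ 2 * s) * (K ^ 2 * 2 ^ (D - 6 * s)) := by gcongr
        _ ≤ 2 ^ s * (K ^ 2 * 2 ^ (D - 6 * s)) := by
            apply Nat.mul_le_mul_right
            calc 32 * (s ^ 3) ^ 2 * s = 32 * s ^ 7 := by ring
              _ ≤ 16 * (s * s ^ 7) := by
                  have h5 : 2 * s ^ 7 ≤ s * s ^ 7 := Nat.mul_le_mul_right _ (by omega)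
                  omega
              _ = 16 * s ^ 8 := by ring
              _ ≤ 2 ^ s := hs8
        _ = 2 ^ (s + (2 * s * 2 + (D - 6 * s))) := by
            rw [hK, ← pow_mul, ← pow_add, ← pow_add]
        _ < 2 ^ D := by
            apply Nat.pow_lt_pow_right (by norm_num)
            omega)
  -- gcd
  obtain ⟨G, hGm, hGd, hGr, U₁, U₂, hU⟩ := exG M₁ M₂ hM10 hM20 hM2c
  have hGroots : ∀ α : ℂ, aeval α G = 0 → α = 0 ∨ ∃ k : ℕ, 0 < k ∧ α ^ k = 1 := by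
    intro α hα
    by_contra hcon
    push Not at hcon
    obtain ⟨h5, h6⟩ := hcon
    have h7 := hGr α hα
    have h8 : α ∈ A := (hAmem α).2 ⟨h7.1, ⟨G, hGm, by rwa [← aeval_def]⟩, h5, h6⟩
    exact hM2A α h8 h7.2
  set W : ℕ := Nat.log 2 (4 * g ^ 2) + 1 with hW
  have hWΛ : W ≤ Λ := by
    refine le_trans ?_ h4
    rw [hW]
    have : Nat.log 2 (4 * g ^ 2) ≤ Nat.log 2 (4 * s ^ 2) :=
      Nat.log_mono_right (Nat.mul_le_mul_left _ (Nat.pow_le_pow_left hgs 2))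
    omega
  obtain ⟨v, hvG, hvd, hvc, hvz⟩ := exv z hz C' hC' hC0 g W (by omega)
    (by
      intro q hq hqg
      refine (le_totient_mul_log q hq).trans (Nat.mul_le_mul_left _ ?_)
      have h5 : q ≤ 4 * g ^ 2 :=
        (le_totient_sq q hq).trans (Nat.mul_le_mul_left _ (Nat.pow_le_pow_left hqg 2))
      have : Nat.log 2 q ≤ Nat.log 2 (4 * g ^ 2) := Nat.log_mono_right h5
      omega)
    G.natDegree (hGd.trans hM1d.le) G hGm rfl hGroots
  have hGg : G.natDegree ≤ g := hGd.trans hM1d.le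
  obtain ⟨F, hF⟩ := hvG
  have hvmap : v.map (algebraMap ℤ ℚ) =
      (F.map (algebraMap ℤ ℚ) * U₁) * M₁.map (algebraMap ℤ ℚ) +
      (F.map (algebraMap ℤ ℚ) * U₂) * M₂.map (algebraMap ℤ ℚ) := by
    rw [hF, Polynomial.map_mul, hU]; ring
  set V : ℕ := W * g with hV
  have hvV : v.natDegree ≤ V := hvd.trans (Nat.mul_le_mul_left _ hGg)
  set H : ℕ := V + g + 1 + D with hH
  have hVle : V ≤ s * Λ := by
    calc V = W * g := rfl
      _ ≤ Λ * s := Nat.mul_le_mul hWΛ hgs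
      _ = s * Λ := mul_comm _ _
  have hsΛ : s ≤ s * Λ := Nat.le_mul_of_pos_right _ hΛ1
  have hHle : H ≤ 10 * (s * Λ) := by
    have : D = 7 * (s * Λ) := by rw [hD]; ring
    omega
  have hHs : H ≤ s ^ 4 := by
    calc H ≤ 10 * (s * Λ) := hHle
      _ ≤ 14 * (s * Λ) := by omega
      _ = 2 * (s * (7 * Λ)) := by ring
      _ ≤ s * (s * s ^ 2) := Nat.mul_le_mul (by omega) (Nat.mul_le_mul_left _ h2)
      _ = s ^ 4 := by ring
  have hvz0 : 0 < ‖aeval z v‖ := lt_of_lt_of_le (Real.exp_pos _) hvz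
  have hvz1 : Real.exp (-(C' * g)) ≤ ‖aeval z v‖ := by
    refine le_trans (Real.exp_le_exp.2 ?_) hvz
    have : (G.natDegree : ℝ) ≤ g := by exact_mod_cast hGg
    exact neg_le_neg (mul_le_mul_of_nonneg_left this hC0)
  set r : ℝ := (1 / 2 : ℝ) ^ s with hr
  have hr0 : 0 < r := by positivity
  set T : ℝ := 2 * r / ‖aeval z v‖ with hT
  have hT0 : 0 ≤ T := by positivity
  have hTv : T * ‖aeval z v‖ = 2 * r := by rw [hT]; field_simp
  have h2s : r * (2 : ℝ) ^ s = 1 := by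
    rw [hr, ← mul_pow]; norm_num
  -- T estimate
  have hsum : ∑ h ∈ range H, |(v.coeff h : ℝ)| ≤ (H : ℝ) * 2 ^ g := by
    calc ∑ h ∈ range H, |(v.coeff h : ℝ)| ≤ ∑ _h ∈ range H, (2 : ℝ) ^ g := by
          refine sum_le_sum fun h _ => ?_
          have h5 : |v.coeff h| ≤ 2 ^ G.natDegree := hvc h
          have h6 : (|v.coeff h| : ℤ) ≤ 2 ^ g :=
            h5.trans (pow_le_pow_right₀ (by norm_num) hGg)
          have h7 : ((|v.coeff h| : ℤ) : ℝ) ≤ 2 ^ g := by exact_mod_cast h6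
          rwa [Int.cast_abs] at h7
      _ = (H : ℝ) * 2 ^ g := by rw [sum_const, card_range, nsmul_eq_mul]
  have hTle : T ≤ 2 * r * Real.exp (C' * g) := by
    rw [hT, div_le_iff₀ hvz0]
    have h5 : 1 ≤ Real.exp (C' * g) * ‖aeval z v‖ := by
      calc (1 : ℝ) = Real.exp (C' * g) * Real.exp (-(C' * g)) := by
            rw [← Real.exp_add, add_neg_cancel, Real.exp_zero]
        _ ≤ _ := mul_le_mul_of_nonneg_left hvz1 (Real.exp_pos _).le
    calc 2 * r ≤ 2 * r * (Real.exp (C' * g) * ‖aeval z v‖) := le_mul_of_one_le_right (by linarith) h5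
      _ = 2 * r * Real.exp (C' * g) * ‖aeval z v‖ := (mul_assoc _ _ _).symm
  have hTsum : T * ∑ h ∈ range H, |(v.coeff h : ℝ)| ≤ 1 := by
    have e1 : T * ∑ h ∈ range H, |(v.coeff h : ℝ)| ≤ 2 * r * H * 2 ^ (Q * g) := by
      calc T * ∑ h ∈ range H, |(v.coeff h : ℝ)| ≤ (2 * r * Real.exp (C' * g)) * (H * 2 ^ g) :=
            mul_le_mul hTle hsum (sum_nonneg fun _ _ => abs_nonneg _) (by positivity)
        _ = 2 * r * H * (Real.exp (C' * g) * 2 ^ g) := by ring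
        _ ≤ 2 * r * H * 2 ^ (Q * g) :=
            mul_le_mul_of_nonneg_left (exp_mul_le C' hC0 Q g hQ) (by positivity)
    have e2 : (2 * H * 2 ^ (Q * g)) ^ 2 ≤ (2 ^ s) ^ 2 := by
      calc (2 * H * 2 ^ (Q * g)) ^ 2 = 4 * H ^ 2 * 2 ^ (2 * (Q * g)) := by
            rw [mul_pow, mul_pow, ← pow_mul, mul_comm (Q * g) 2]; norm_num
        _ ≤ 4 * (s ^ 4) ^ 2 * 2 ^ (s + 2 * Q) := by
            apply Nat.mul_le_mul
            · exact Nat.mul_le_mul_left _ (Nat.pow_le_pow_left hHs 2)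
            · exact Nat.pow_le_pow_right (by norm_num) hQg2
        _ = (4 * 4 ^ Q * s ^ 8) * 2 ^ s := by
            rw [pow_add, pow_mul 2 2 Q]; norm_num; ring
        _ ≤ 2 ^ s * 2 ^ s := Nat.mul_le_mul_right _ h1
        _ = (2 ^ s) ^ 2 := by ring
    have e3 : 2 * H * 2 ^ (Q * g) ≤ 2 ^ s := (Nat.pow_le_pow_iff_left (by norm_num)).1 e2
    have e4 : (2 : ℝ) * H * 2 ^ (Q * g) ≤ 2 ^ s := by exact_mod_cast e3
    calc T * ∑ h ∈ range H, |(v.coeff h : ℝ)| ≤ 2 * r * H * 2 ^ (Q * g) := e1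
      _ = r * (2 * H * 2 ^ (Q * g)) := by ring
      _ ≤ r * 2 ^ s := mul_le_mul_of_nonneg_left e4 hr0.le
      _ = 1 := h2s
  have hcc : 3 * ((D + (V + g + 1) : ℕ) : ℝ) * (2 / K) ≤ r / 2 := by
    have e1 : D + (V + g + 1) = H := by omega
    rw [e1]
    have e2 : 12 * H ≤ 2 ^ s := by
      calc 12 * H ≤ 12 * s ^ 4 := Nat.mul_le_mul_left _ hHs
        _ ≤ 16 * s ^ 8 := Nat.mul_le_mul (by norm_num) (Nat.pow_le_pow_right (by omega) (by norm_num))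
        _ ≤ 2 ^ s := hs8
    have e3 : (12 : ℝ) * H ≤ 2 ^ s := by exact_mod_cast e2
    have e4 : (K : ℝ) = 2 ^ s * 2 ^ s := by rw [hK]; push_cast; rw [← pow_add]; congr 1; ring
    have e5 : r = 1 / 2 ^ s := by rw [hr, one_div, one_div, inv_pow]
    have e6 : (0 : ℝ) < 2 ^ s := by positivity
    rw [e4, e5]
    rw [show 3 * (H : ℝ) * (2 / (2 ^ s * 2 ^ s)) = (6 * H) / (2 ^ s * 2 ^ s) by ring,
      show (1 : ℝ) / 2 ^ s / 2 = (2 ^ s / 2) / (2 ^ s * 2 ^ s) by field_simp]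
    apply div_le_div_of_nonneg_right _ (by positivity)
    linarith
  obtain ⟨L, hL1, hL2, hL3, hL4⟩ := exL z hz M₁ M₂ v g b D V hM1d hM1c hM20 hM2d hM2c (2 / K) r T
    hM1z hM2z (F.map (algebraMap ℤ ℚ) * U₁) (F.map (algebraMap ℤ ℚ) * U₂) hvmap hvV hT0
    (by rw [hTv]) hr0 hcc hTsum
  refine ⟨L, H, hL1, hL2, hL3, hHle, hL4.trans ?_⟩
  apply add_le_add le_rfl
  apply Real.sqrt_le_sqrt
  have f1 : (H : ℝ) ≤ 10 * ((s * Λ : ℕ) : ℝ) := by exact_mod_cast hHle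
  have f2 : (D : ℝ) = 7 * ((s * Λ : ℕ) : ℝ) := by rw [hD]; push_cast; ring
  have f3 : (g : ℝ) ≤ ((s * Λ : ℕ) : ℝ) := by exact_mod_cast hgs.trans hsΛ
  have f4 : ((V + g + 1 : ℕ) : ℝ) ≤ 3 * ((s * Λ : ℕ) : ℝ) := by
    have : V + g + 1 ≤ 3 * (s * Λ) := by omega
    exact_mod_cast this
  have f5 : (b : ℝ) = 2 ^ (16 * Q) := by rw [hb]; push_cast; rfl
  have f6 : (1 : ℝ) ≤ (b : ℝ) ^ 2 := by
    have : (1 : ℝ) ≤ b := by exact_mod_cast hb1
    exact one_le_pow₀ this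
  rw [← f5]
  exact final_bound _ _ _ _ _ _ f1 f2 f3 f4 f6 (Nat.cast_nonneg _) (Nat.cast_nonneg _)
    (Nat.cast_nonneg _)

end Pool.Agent.Helper181_DPV
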