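import Pool.Agent.Helper181_DPV.Blocks

/-!
Integer polynomials with small values at a point of the unit circle.
-/

set_option autoImplicit false

open Finset Polynomial Module

namespace Pool.Agent.Helper181_DPV

open Pool.Agent.H388SL

/-- the block lemma for complex algebraic integers -/
lemma blocksC : ∃ c : ℝ, 0 < c ∧ ∀ α : ℂ, IsIntegral ℤ α → α ≠ 0 → (∀ n : ℕ, 0 < n → α ^ n ≠ 1) →
    ∀ Λ N : ℕ, 1 ≤ Λ →
    Real.log (N * (minpoly ℚ α).natDegree) <
      ((Λ : ℝ) - 1) * (c / (Real.log (2 * (minpoly ℚ α).natDegree)) ^ 3) →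
    ∀ e : ℕ → ℕ → ℤ, (∀ i j, |e i j| ≤ 1) →
    ∑ i ∈ range N, ∑ j ∈ range (minpoly ℚ α).natDegree,
      (e i j : ℂ) * α ^ (i * ((minpoly ℚ α).natDegree * Λ) + j) = 0 →
    ∀ i < N, ∀ j < (minpoly ℚ α).natDegree, e i j = 0 := by
  obtain ⟨c, hc0, hc⟩ := dob
  refine ⟨c, hc0, ?_⟩
  intro α hα h0 hroot Λ N hΛ hbig e he hsum
  have hint : IsIntegral ℚ α := hα.tower_top
  have hfd : FiniteDimensional ℚ (IntermediateField.adjoin ℚ {α}) :=
    IntermediateField.adjoin.finiteDimensional hint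
  have : NumberField (IntermediateField.adjoin ℚ {α}) :=
    { to_charZero := inferInstance, to_finiteDimensional := hfd }
  set β : IntermediateField.adjoin ℚ {α} := IntermediateField.AdjoinSimple.gen ℚ α with hβ
  have hβα : algebraMap (IntermediateField.adjoin ℚ {α}) ℂ β = α :=
    IntermediateField.AdjoinSimple.algebraMap_gen ℚ α
  have hmin : minpoly ℚ β = minpoly ℚ α := IntermediateField.minpoly_gen ℚ α
  have hfin : finrank ℚ (IntermediateField.adjoin ℚ {α}) = (minpoly ℚ α).natDegree :=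
    IntermediateField.adjoin.finrank hint
  have hβint : IsIntegral ℤ β := by
    rw [← isIntegral_algebraMap_iff (algebraMap (IntermediateField.adjoin ℚ {α}) ℂ).injective, hβα]
    exact hα
  have hβ0 : β ≠ 0 := by
    intro h
    rw [h, map_zero] at hβα
    exact h0 hβα.symm
  have hβroot : ∀ n : ℕ, 0 < n → β ^ n ≠ 1 := by
    intro n hn h
    have := congrArg (algebraMap (IntermediateField.adjoin ℚ {α}) ℂ) h
    rw [map_pow, hβα, map_one] at this
    exact hroot n hn this
  have hcinj : CInj β := by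
    intro σ τ h
    have h1 : σ ((IntermediateField.adjoin.powerBasis hint).gen) =
        τ ((IntermediateField.adjoin.powerBasis hint).gen) := by
      rw [IntermediateField.adjoin.powerBasis_gen]
      exact h
    exact (IntermediateField.adjoin.powerBasis hint).algHom_ext h1
  have hlam := hc _ β hβint hβ0 hβroot hcinj
  rw [hfin] at hlam
  have hΛ' : (0 : ℝ) ≤ (Λ : ℝ) - 1 := by
    have : (1 : ℝ) ≤ Λ := by exact_mod_cast hΛ
    linarith
  refine blocks hβint hcinj (minpoly ℚ α).natDegree Λ N hfin.symm (by rw [hmin]) hΛ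
    (hbig.trans_le (mul_le_mul_of_nonneg_left hlam hΛ')) e he ?_
  apply (algebraMap (IntermediateField.adjoin ℚ {α}) ℂ).injective
  rw [map_zero, ← hsum, map_sum]
  refine sum_congr rfl fun i _ => ?_
  rw [map_sum]
  refine sum_congr rfl fun j _ => ?_
  rw [map_mul, map_pow, hβα, map_intCast]

/-- pigeonhole in the plane -/
lemma cells {τ : Type*} [DecidableEq τ] (T : Finset τ) (f : τ → ℂ) (R K n : ℕ) (hK : 0 < K)
    (hR : ∀ x ∈ T, ‖f x‖ ≤ R) (h : (2 * (R * K) + 3) ^ 2 * n < T.card) :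
    ∃ C ⊆ T, n < C.card ∧ ∀ x ∈ C, ∀ y ∈ C, ‖f x - f y‖ ≤ 2 / K := by
  classical
  set M : ℤ := (R * K : ℕ) + 1 with hM
  set g : τ → ℤ × ℤ := fun x => (⌊(f x).re * K⌋, ⌊(f x).im * K⌋) with hg
  set t : Finset (ℤ × ℤ) := (Finset.Icc (-M) M) ×ˢ (Finset.Icc (-M) M) with ht
  have hK0 : (0 : ℝ) < K := by exact_mod_cast hK
  have hcoord : ∀ w : ℝ, |w| ≤ R → ⌊w * K⌋ ∈ Finset.Icc (-M) M := by
    intro w hw
    rw [Finset.mem_Icc]
    have h1 : |w * K| ≤ (R * K : ℕ) := by
      rw [abs_mul, abs_of_pos hK0]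
      push_cast
      exact mul_le_mul_of_nonneg_right hw hK0.le
    rw [abs_le] at h1
    constructor
    · rw [Int.le_floor]
      rw [hM]
      push_cast at h1 ⊢
      linarith [h1.1]
    · have h2 := Int.floor_le (w * K)
      have h3 : ((⌊w * K⌋ : ℤ) : ℝ) ≤ ((M : ℤ) : ℝ) := by
        rw [hM]
        push_cast at h1 ⊢
        linarith [h1.2]
      exact_mod_cast h3
  have hmaps : ∀ x ∈ T, g x ∈ t := by
    intro x hx
    rw [ht, mem_product]
    exact ⟨hcoord _ ((Complex.abs_re_le_norm _).trans (hR x hx)),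
      hcoord _ ((Complex.abs_im_le_norm _).trans (hR x hx))⟩
  have hcard : t.card = (2 * (R * K) + 3) ^ 2 := by
    rw [ht, card_product, Int.card_Icc]
    have : (M + 1 - -M).toNat = 2 * (R * K) + 3 := by
      rw [hM]; push_cast; omega
    rw [this]; ring
  obtain ⟨y, _, hy⟩ := exists_lt_card_fiber_of_mul_lt_card_of_maps_to hmaps (n := n)
    (by rw [hcard]; exact h)
  refine ⟨T.filter (fun x => g x = y), filter_subset _ _, hy, ?_⟩
  intro a ha b hb
  rw [mem_filter] at ha hb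
  have hab : g a = g b := ha.2.trans hb.2.symm
  have h1 : ⌊(f a).re * K⌋ = ⌊(f b).re * K⌋ := congrArg Prod.fst hab
  have h2 : ⌊(f a).im * K⌋ = ⌊(f b).im * K⌋ := congrArg Prod.snd hab
  have hd : ∀ u v : ℝ, ⌊u * K⌋ = ⌊v * K⌋ → |u - v| ≤ 1 / K := by
    intro u v huv
    have h3 := Int.abs_sub_lt_one_of_floor_eq_floor huv
    rw [← sub_mul, abs_mul, abs_of_pos hK0] at h3
    rw [le_div_iff₀ hK0]
    exact h3.le
  calc ‖f a - f b‖ ≤ |(f a - f b).re| + |(f a - f b).im| := Complex.norm_le_abs_re_add_abs_im _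
    _ ≤ 1 / K + 1 / K := by
        rw [Complex.sub_re, Complex.sub_im]
        exact add_le_add (hd _ _ h1) (hd _ _ h2)
    _ = 2 / K := by ring

/-- small polynomials of low degree -/
lemma exM1 (z : ℂ) (hz : ‖z‖ = 1) (g b K : ℕ) (hK : 0 < K)
    (h : (2 * (g * b * K) + 3) ^ 2 < b ^ g) :
    ∃ M : ℤ[X], M ≠ 0 ∧ M.natDegree < g ∧ (∀ i, |M.coeff i| ≤ b) ∧ ‖aeval z M‖ ≤ 2 / K := by
  classical
  set f : (Fin g → Fin b) → ℂ := fun c => ∑ j : Fin g, ((c j : ℕ) : ℂ) * z ^ (j : ℕ) with hf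
  obtain ⟨C0, _, hC1, hC2⟩ := cells (univ : Finset (Fin g → Fin b)) f (g * b) K 1 hK
    (by
      intro c _
      rw [hf]
      refine (norm_sum_le _ _).trans ?_
      calc ∑ j : Fin g, ‖((c j : ℕ) : ℂ) * z ^ (j : ℕ)‖ ≤ ∑ _j : Fin g, (b : ℝ) := by
            refine sum_le_sum fun j _ => ?_
            rw [norm_mul, norm_pow, hz, one_pow, mul_one, Complex.norm_natCast]
            exact_mod_cast (c j).2.le
        _ = ((g * b : ℕ) : ℝ) := by
            rw [sum_const, card_univ, Fintype.card_fin, nsmul_eq_mul]; push_cast; ring)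
    (by rw [card_univ, Fintype.card_fun, Fintype.card_fin, Fintype.card_fin, mul_one]; exact h)
  obtain ⟨c, hc, c', hc', hne⟩ := one_lt_card.1 hC1
  set M : ℤ[X] := ∑ j : Fin g, C (((c j : ℕ) : ℤ) - ((c' j : ℕ) : ℤ)) * X ^ (j : ℕ) with hM
  have hcoeff : ∀ j : Fin g, M.coeff j = ((c j : ℕ) : ℤ) - ((c' j : ℕ) : ℤ) := by
    intro j
    rw [hM, finsetSum_coeff, sum_eq_single j]
    · rw [coeff_C_mul_X_pow, if_pos rfl]
    · intro i _ hij
      rw [coeff_C_mul_X_pow, if_neg]
      intro h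
      exact hij (Fin.ext h.symm)
    · intro h; exact absurd (mem_univ j) h
  have hcoeff' : ∀ i, g ≤ i → M.coeff i = 0 := by
    intro i hi
    rw [hM, finsetSum_coeff]
    refine sum_eq_zero fun j _ => ?_
    rw [coeff_C_mul_X_pow, if_neg]
    have := j.2
    omega
  have hM0 : M ≠ 0 := by
    intro h0
    apply hne
    funext j
    have h1 := hcoeff j
    rw [h0, coeff_zero] at h1
    apply Fin.ext
    omega
  refine ⟨M, hM0, ?_, ?_, ?_⟩
  · rw [natDegree_lt_iff_degree_lt hM0, degree_lt_iff_coeff_zero]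
    exact hcoeff'
  · intro i
    rcases lt_or_ge i g with hi | hi
    · have h1 := hcoeff ⟨i, hi⟩
      simp only at h1
      rw [h1, abs_le]
      have h2 := (c ⟨i, hi⟩).2
      have h3 := (c' ⟨i, hi⟩).2
      constructor <;> omega
    · rw [hcoeff' i hi]; simp
  · have h1 := hC2 c hc c' hc'
    have h2 : aeval z M = f c - f c' := by
      rw [hM, hf, map_sum, ← sum_sub_distrib]
      refine sum_congr rfl fun j _ => ?_
      simp
      ring
    rw [h2]; exact h1

/-- sparse differences avoiding a finite set of numbers -/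
lemma exM2 (z : ℂ) (hz : ‖z‖ = 1) (D K m : ℕ) (hK : 0 < K) (hm : m ≤ D) (A : Finset ℂ)
    (J : ℂ → Finset ℕ) (hJ : ∀ α ∈ A, J α ⊆ range D) (hJc : ∀ α ∈ A, m ≤ (J α).card)
    (hinj : ∀ α ∈ A, ∀ S ⊆ range D, ∀ S' ⊆ range D, S \ J α = S' \ J α →
      ∑ j ∈ S, α ^ j = ∑ j ∈ S', α ^ j → S = S')
    (h : (2 * (D * K) + 3) ^ 2 * (A.card * 2 ^ (D - m) + 1) < 2 ^ D) :
    ∃ M : ℤ[X], M ≠ 0 ∧ M.natDegree < D ∧ (∀ i, |M.coeff i| ≤ 1) ∧ ‖aeval z M‖ ≤ 2 / K ∧
      ∀ α ∈ A, aeval α M ≠ 0 := by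
  classical
  set f : Finset ℕ → ℂ := fun S => ∑ j ∈ S, z ^ j with hf
  obtain ⟨C0, hC0, hC1, hC2⟩ := cells (range D).powerset f D K (A.card * 2 ^ (D - m) + 1) hK
    (by
      intro S hS
      rw [mem_powerset] at hS
      rw [hf]
      refine (norm_sum_le _ _).trans ?_
      calc ∑ j ∈ S, ‖z ^ j‖ = ∑ _j ∈ S, (1 : ℝ) := by
            refine sum_congr rfl fun j _ => ?_
            rw [norm_pow, hz, one_pow]
        _ = S.card := by simp
        _ ≤ D := by
            have := card_le_card hS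
            rw [card_range] at this
            exact_mod_cast this)
    (by rw [card_powerset, card_range]; exact h)
  obtain ⟨S0, hS0⟩ : C0.Nonempty := card_pos.1 (by omega)
  have hS0' : S0 ⊆ range D := mem_powerset.1 (hC0 hS0)
  -- the bad sets
  set B : Finset (Finset ℕ) := A.biUnion
    (fun α => C0.filter (fun S => ∑ j ∈ S, α ^ j = ∑ j ∈ S0, α ^ j)) with hB
  have hBcard : B.card ≤ A.card * 2 ^ (D - m) := by
    refine (card_biUnion_le).trans ?_
    rw [← smul_eq_mul]
    refine sum_le_card_nsmul _ _ _ fun α hα => ?_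
    calc (C0.filter (fun S => ∑ j ∈ S, α ^ j = ∑ j ∈ S0, α ^ j)).card
        ≤ ((range D \ J α).powerset).card := by
          apply card_le_card_of_injOn (fun S => S \ J α)
          · intro S hS
            rw [mem_coe, mem_filter] at hS
            rw [mem_coe, mem_powerset]
            exact sdiff_subset_sdiff (mem_powerset.1 (hC0 hS.1)) (Finset.Subset.refl _)
          · intro S hS S' hS' hSS'
            rw [mem_coe, mem_filter] at hS hS'
            exact hinj α hα S (mem_powerset.1 (hC0 hS.1)) S' (mem_powerset.1 (hC0 hS'.1)) hSS'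
              (hS.2.trans hS'.2.symm)
      _ = 2 ^ (D - (J α).card) := by
          rw [card_powerset, card_sdiff_of_subset (hJ α hα), card_range]
      _ ≤ 2 ^ (D - m) := by
          apply Nat.pow_le_pow_right (by norm_num)
          have := hJc α hα
          omega
  obtain ⟨S, hS, hSB⟩ : ∃ S ∈ C0, S ∉ insert S0 B := by
    by_contra hcon
    push Not at hcon
    have h1 : C0 ⊆ insert S0 B := hcon
    have h2 := card_le_card h1
    have h3 := card_insert_le S0 B
    omega
  rw [mem_insert, not_or] at hSB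
  obtain ⟨hne, hSB⟩ := hSB
  have hS' : S ⊆ range D := mem_powerset.1 (hC0 hS)
  set M : ℤ[X] := ∑ j ∈ S, X ^ j - ∑ j ∈ S0, X ^ j with hM
  have hcoeff : ∀ i, M.coeff i = (if i ∈ S then 1 else 0) - (if i ∈ S0 then 1 else 0) := by
    intro i
    rw [hM, coeff_sub, finsetSum_coeff, finsetSum_coeff]
    simp [coeff_X_pow]
  have hcoeff' : ∀ i, D ≤ i → M.coeff i = 0 := by
    intro i hi
    rw [hcoeff, if_neg, if_neg, sub_zero]
    · intro h; have := mem_range.1 (hS0' h); omega
    · intro h; have := mem_range.1 (hS' h); omega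
  have hM0 : M ≠ 0 := by
    intro h0
    apply hne
    ext i
    have h1 := hcoeff i
    rw [h0, coeff_zero] at h1
    by_cases h2 : i ∈ S
    · by_cases h3 : i ∈ S0
      · exact ⟨fun _ => h3, fun _ => h2⟩
      · rw [if_pos h2, if_neg h3] at h1
        omega
    · by_cases h3 : i ∈ S0
      · rw [if_neg h2, if_pos h3] at h1
        omega
      · exact ⟨fun h => absurd h h2, fun h => absurd h h3⟩
  refine ⟨M, hM0, ?_, ?_, ?_, ?_⟩
  · rw [natDegree_lt_iff_degree_lt hM0, degree_lt_iff_coeff_zero]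
    exact hcoeff'
  · intro i
    rw [hcoeff]
    split_ifs <;> simp
  · have h1 := hC2 S hS S0 hS0
    have h2 : aeval z M = f S - f S0 := by
      rw [hM, hf]; simp
    rw [h2]; exact h1
  · intro α hα h0
    apply hSB
    rw [hB, mem_biUnion]
    refine ⟨α, hα, ?_⟩
    rw [mem_filter]
    refine ⟨hS, ?_⟩
    rw [hM] at h0
    simp only [map_sub, map_sum, map_pow, aeval_X] at h0
    exact sub_eq_zero.1 h0

end Pool.Agent.Helper181_DPV
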